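import Pool.Agent.Q93.HK.Basic

namespace Q93HK

open Equiv

variable {m : ℕ} {K H : Type*} [Field K] [Ring H] [Algebra K H]

/-- Hecke relations with parameter `q` -/
structure HRel (q : K) (T : Fin m → H) : Prop extends Braid T where
  quad : ∀ i, T i * T i = 1 + (q - q⁻¹) • T i

variable {q : K} {T : Fin m → H}

lemma Tp_desc (hT : HRel q T) (i : Fin m) (σ : Perm (Fin (m+1))) (h : σ⁻¹ i.succ < σ⁻¹ i.castSucc) :
    T i * Tp T σ = Tp T (s i * σ) + (q - q⁻¹) • Tp T σ := by
  have h1 := Tp_asc hT.toBraid i (s i * σ) (by simpa [inv_s_mul_apply] using h)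
  rw [s_mul_s_mul] at h1
  rw [h1, ← mul_assoc, hT.quad, add_mul, one_mul, smul_mul_assoc]

lemma Tp_desc_right (hT : HRel q T) (i : Fin m) (σ : Perm (Fin (m+1)))
    (h : σ i.succ < σ i.castSucc) :
    Tp T σ * T i = Tp T (σ * s i) + (q - q⁻¹) • Tp T σ := by
  have h1 := Tp_asc_right hT.toBraid i (σ * s i) (by simpa using h)
  rw [mul_assoc, s_mul_self, mul_one] at h1
  rw [h1, mul_assoc, hT.quad, mul_add, mul_one, mul_smul_comm]

lemma eig_left (hT : HRel q T) (t : K) (ht : t * t = 1 + (q - q⁻¹) * t) (i : Fin m)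
    (P : Finset (Perm (Fin (m+1)))) (hP : ∀ σ ∈ P, s i * σ ∈ P) :
    T i * ∑ σ ∈ P, t ^ inv σ • Tp T σ = t • ∑ σ ∈ P, t ^ inv σ • Tp T σ := by
  rw [← sub_eq_zero, Finset.mul_sum, Finset.smul_sum, ← Finset.sum_sub_distrib]
  have key : ∀ σ : Perm (Fin (m+1)), σ⁻¹ i.castSucc < σ⁻¹ i.succ →
      (T i * t ^ inv σ • Tp T σ - t • t ^ inv σ • Tp T σ) +
      (T i * t ^ inv (s i * σ) • Tp T (s i * σ) - t • t ^ inv (s i * σ) • Tp T (s i * σ)) = 0 := by
    intro σ h
    have h2 := Tp_desc hT i (s i * σ) (by simpa [inv_s_mul_apply] using h)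
    rw [s_mul_s_mul] at h2
    rw [mul_smul_comm, mul_smul_comm, h2, ← Tp_asc hT.toBraid i σ h, inv_asc i σ h]
    generalize Tp T (s i * σ) = b
    generalize Tp T σ = a
    have e : t ^ inv σ * (1 + (q - q⁻¹) * t - t * t) = 0 := by rw [ht]; ring
    have e2 : t ^ inv σ • b - t • t ^ inv σ • a +
        (t ^ (inv σ + 1) • (a + (q - q⁻¹) • b) - t • t ^ (inv σ + 1) • b) =
        (t ^ inv σ * (1 + (q - q⁻¹) * t - t * t)) • b := by
      rw [pow_succ]; module
    rw [e2, e, zero_smul]
  apply Finset.sum_involution (fun σ _ => s i * σ)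
  · intro σ hσ
    rcases asc_or_desc i σ with h | h
    · exact key σ h
    · have := key (s i * σ) (by simpa [inv_s_mul_apply] using h)
      rw [s_mul_s_mul] at this
      rw [add_comm]; exact this
  · intro σ hσ _ hh
    have : s i = 1 := by simpa using hh
    have h2 := congrArg (fun f : Perm (Fin (m+1)) => f i.castSucc) this
    simp [Fin.ext_iff] at h2
  · intro σ hσ; exact hP σ hσ
  · intro σ hσ; exact s_mul_s_mul i σ

lemma eig_right (hT : HRel q T) (t : K) (ht : t * t = 1 + (q - q⁻¹) * t) (i : Fin m)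
    (P : Finset (Perm (Fin (m+1)))) (hP : ∀ σ ∈ P, σ * s i ∈ P) :
    (∑ σ ∈ P, t ^ inv σ • Tp T σ) * T i = t • ∑ σ ∈ P, t ^ inv σ • Tp T σ := by
  rw [← sub_eq_zero, Finset.sum_mul, Finset.smul_sum, ← Finset.sum_sub_distrib]
  have key : ∀ σ : Perm (Fin (m+1)), σ i.castSucc < σ i.succ →
      (t ^ inv σ • Tp T σ * T i - t • t ^ inv σ • Tp T σ) +
      (t ^ inv (σ * s i) • Tp T (σ * s i) * T i - t • t ^ inv (σ * s i) • Tp T (σ * s i)) = 0 := by
    intro σ h
    have h2 := Tp_desc_right hT i (σ * s i) (by simpa using h)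
    rw [mul_assoc, s_mul_self, mul_one] at h2
    rw [smul_mul_assoc, smul_mul_assoc, h2, ← Tp_asc_right hT.toBraid i σ h, inv_asc_right i σ h]
    generalize Tp T (σ * s i) = b
    generalize Tp T σ = a
    have e : t ^ inv σ * (1 + (q - q⁻¹) * t - t * t) = 0 := by rw [ht]; ring
    have e2 : t ^ inv σ • b - t • t ^ inv σ • a +
        (t ^ (inv σ + 1) • (a + (q - q⁻¹) • b) - t • t ^ (inv σ + 1) • b) =
        (t ^ inv σ * (1 + (q - q⁻¹) * t - t * t)) • b := by
      rw [pow_succ]; module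
    rw [e2, e, zero_smul]
  have mm : ∀ σ : Perm (Fin (m+1)), σ * s i * s i = σ := by
    intro σ; rw [mul_assoc, s_mul_self, mul_one]
  apply Finset.sum_involution (fun σ _ => σ * s i)
  · intro σ hσ
    rcases asc_or_desc i σ⁻¹ with h | h
    · exact key σ (by simpa using h)
    · have := key (σ * s i) (by simpa using h)
      rw [mm] at this
      rw [add_comm]; exact this
  · intro σ hσ _ hh
    have : s i = 1 := by simpa using hh
    have h2 := congrArg (fun f : Perm (Fin (m+1)) => f i.castSucc) this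
    simp [Fin.ext_iff] at h2
  · intro σ hσ; exact hP σ hσ
  · intro σ hσ; exact mm σ

/-- increasing on every part of `β` -/
def InP (β : Fin (m+1) → ℕ) (d : Perm (Fin (m+1))) : Prop :=
  ∀ x y : Fin (m+1), x < y → β x = β y → d x < d y

lemma InP_step {β : Fin (m+1) → ℕ} {d : Perm (Fin (m+1))} (hd : InP β d) (i : Fin m)
    (h : β (d⁻¹ i.castSucc) ≠ β (d⁻¹ i.succ)) : InP β (s i * d) := by
  intro x y hxy hβ
  have h1 := hd x y hxy hβ
  rw [Perm.mul_apply, Perm.mul_apply]
  apply s_lt i h1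
  rintro ⟨e1, e2⟩
  apply h
  rw [← e1, ← e2]
  simpa using hβ

lemma InP_adj {β : Fin (m+1) → ℕ} (hβ : Monotone β) {f : Perm (Fin (m+1))} (hf : InP β f) (i : Fin m)
    (h : β (f⁻¹ i.castSucc) = β (f⁻¹ i.succ)) :
    ∃ p : Fin m, f⁻¹ i.castSucc = p.castSucc ∧ f⁻¹ i.succ = p.succ ∧ s i * f = f * s p := by
  set a := f⁻¹ i.castSucc with ha
  set b := f⁻¹ i.succ with hb
  have fa : f a = i.castSucc := by rw [ha]; simp
  have fb : f b = i.succ := by rw [hb]; simp
  have hlt : a < b := by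
    rcases lt_trichotomy a b with h1 | h1 | h1
    · exact h1
    · rw [h1] at fa; rw [fa] at fb; simp [Fin.ext_iff] at fb
    · have := hf b a h1 h.symm
      rw [fa, fb] at this
      exact absurd this (not_lt.mpr (Fin.castSucc_lt_succ).le)
  have hb1 : (b:ℕ) = a + 1 := by
    by_contra hne
    have hlt' : (a:ℕ) < b := hlt
    have hbm := b.isLt
    set c : Fin (m+1) := ⟨a+1, by omega⟩ with hc
    have hac : a < c := by rw [Fin.lt_def]; simp [hc]
    have hcb : c < b := by rw [Fin.lt_def]; simp only [hc]; omega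
    have e1 : β a = β c := le_antisymm (hβ hac.le) (by rw [h]; exact hβ hcb.le)
    have l1 := hf a c hac e1
    have l2 := hf c b hcb (by rw [← e1, h])
    rw [fa] at l1; rw [fb] at l2
    rw [Fin.lt_def] at l1 l2
    simp only [Fin.val_castSucc, Fin.val_succ] at l1 l2
    omega
  have hbm := b.isLt
  refine ⟨⟨a, by omega⟩, ?_, ?_, ?_⟩
  · ext; simp
  · ext; simp [hb1]
  · have e1 : (⟨a, by omega⟩ : Fin m).castSucc = a := by ext; simp
    have e2 : (⟨a, by omega⟩ : Fin m).succ = b := by ext; simp [hb1]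
    unfold s
    rw [mul_swap_eq_swap_mul, e1, e2, fa, fb]

open Classical in
/-- the central element attached to `A` -/
noncomputable def Zc (T : Fin m → H) (β : Fin (m+1) → ℕ) (A : H) : H :=
  ∑ d ∈ Finset.univ.filter (InP β), Tp T d * A * Tp T d⁻¹

lemma Zc_comm (hT : HRel q T) {A : H} {β : Fin (m+1) → ℕ} (hβ : Monotone β)
    (hA : ∀ p : Fin m, β p.castSucc = β p.succ → T p * A = A * T p) (i : Fin m) :
    T i * Zc T β A = Zc T β A * T i := by
  classical
  unfold Zc
  rw [← sub_eq_zero, Finset.mul_sum, Finset.sum_mul, ← Finset.sum_sub_distrib]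
  have key : ∀ d : Perm (Fin (m+1)), d⁻¹ i.castSucc < d⁻¹ i.succ →
      (T i * (Tp T d * A * Tp T d⁻¹) - (Tp T d * A * Tp T d⁻¹) * T i) +
      (T i * (Tp T (s i * d) * A * Tp T (s i * d)⁻¹) -
        (Tp T (s i * d) * A * Tp T (s i * d)⁻¹) * T i) = 0 := by
    intro d h
    have h1 : Tp T (s i * d) = T i * Tp T d := Tp_asc hT.toBraid i d h
    have h2 : Tp T (s i * d)⁻¹ = Tp T d⁻¹ * T i := by
      rw [mul_inv_rev, s_inv]
      exact Tp_asc_right hT.toBraid i d⁻¹ h
    rw [h1, h2]
    generalize Tp T d = a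
    generalize Tp T d⁻¹ = b
    have e1 : T i * (T i * a * A * (b * T i)) = (T i * T i) * (a * A * b * T i) := by noncomm_ring
    have e2 : T i * a * A * (b * T i) * T i = (T i * a * A * b) * (T i * T i) := by noncomm_ring
    rw [e1, e2, hT.quad, add_mul, mul_add, one_mul, mul_one, smul_mul_assoc, mul_smul_comm]
    have e3 : T i * (a * A * b * T i) = T i * a * A * b * T i := by noncomm_ring
    rw [e3]
    noncomm_ring
  have same : ∀ d : Perm (Fin (m+1)), InP β d → β (d⁻¹ i.castSucc) = β (d⁻¹ i.succ) →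
      T i * (Tp T d * A * Tp T d⁻¹) - (Tp T d * A * Tp T d⁻¹) * T i = 0 := by
    intro d hd h
    obtain ⟨p, hp1, hp2, hp3⟩ := InP_adj hβ hd i h
    have l1 : d⁻¹ i.castSucc < d⁻¹ i.succ := by rw [hp1, hp2]; exact Fin.castSucc_lt_succ
    have l2 : d p.castSucc < d p.succ := by
      have e1 : d (d⁻¹ i.castSucc) = i.castSucc := by simp
      have e2 : d (d⁻¹ i.succ) = i.succ := by simp
      rw [← hp1, ← hp2, e1, e2]; exact Fin.castSucc_lt_succ
    have h1 : T i * Tp T d = Tp T d * T p := by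
      rw [← Tp_asc hT.toBraid i d l1, ← Tp_asc_right hT.toBraid p d l2, hp3]
    have h2 : Tp T d⁻¹ * T i = T p * Tp T d⁻¹ := by
      rw [← Tp_asc_right hT.toBraid i d⁻¹ l1, ← Tp_asc hT.toBraid p d⁻¹ (by simpa using l2)]
      congr 1
      have := congrArg (fun f : Perm (Fin (m+1)) => f⁻¹) hp3
      simpa [mul_inv_rev] using this
    have h3 := hA p (by rw [← hp1, ← hp2]; exact h)
    calc T i * (Tp T d * A * Tp T d⁻¹) - (Tp T d * A * Tp T d⁻¹) * T i
        = (T i * Tp T d) * A * Tp T d⁻¹ - Tp T d * A * (Tp T d⁻¹ * T i) := by noncomm_ring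
      _ = Tp T d * (T p * A) * Tp T d⁻¹ - Tp T d * (A * T p) * Tp T d⁻¹ := by
          rw [h1, h2]; noncomm_ring
      _ = 0 := by rw [h3, sub_self]
  apply Finset.sum_involution
    (fun d _ => if β (d⁻¹ i.castSucc) = β (d⁻¹ i.succ) then d else s i * d)
  · intro d hd
    simp only [Finset.mem_filter, Finset.mem_univ, true_and] at hd
    split_ifs with hc
    · rw [same d hd hc, add_zero]
    · rcases asc_or_desc i d with h | h
      · exact key d h
      · have := key (s i * d) (by simpa [inv_s_mul_apply] using h)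
        rw [s_mul_s_mul] at this
        rw [add_comm]; exact this
  · intro d hd hne hh
    simp only [Finset.mem_filter, Finset.mem_univ, true_and] at hd
    split_ifs at hh with hc
    · exact hne (same d hd hc)
    · have : s i = 1 := by simpa using hh
      have h2 := congrArg (fun f : Perm (Fin (m+1)) => f i.castSucc) this
      simp [Fin.ext_iff] at h2
  · intro d hd
    simp only [Finset.mem_filter, Finset.mem_univ, true_and] at hd ⊢
    split_ifs with hc
    · exact hd
    · exact InP_step hd i hc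
  · intro d hd
    by_cases hc : β (d⁻¹ i.castSucc) = β (d⁻¹ i.succ)
    · simp only [hc, if_true]
    · simp only [hc, if_false]
      have hc' : ¬ β ((s i * d)⁻¹ i.castSucc) = β ((s i * d)⁻¹ i.succ) := by
        rw [inv_s_mul_apply, inv_s_mul_apply, s_castSucc, s_succ]
        exact fun h => hc h.symm
      rw [if_neg hc', s_mul_s_mul]

end Q93HK
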