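import Mathlib

namespace Q93HK

open Equiv

/-- the adjacent transposition exchanging `i` and `i+1` -/
def s {m : ℕ} (i : Fin m) : Perm (Fin (m+1)) := swap i.castSucc i.succ

/-- the permutation of a word -/
def wp {m : ℕ} (w : List (Fin m)) : Perm (Fin (m+1)) := (w.map s).prod

/-- Coxeter length: the least length of a word in the adjacent transpositions -/
noncomputable def len {m : ℕ} (σ : Perm (Fin (m+1))) : ℕ :=
  sInf {k | ∃ w : List (Fin m), w.length = k ∧ wp w = σ}

/-- a chosen reduced word -/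
noncomputable def redWord {m : ℕ} (σ : Perm (Fin (m+1))) : List (Fin m) :=
  Classical.epsilon (fun w : List (Fin m) => wp w = σ ∧ w.length = len σ)

/-- product of the `T i` along a reduced word of `σ` -/
noncomputable def Tp {M : Type*} [Monoid M] {m : ℕ} (T : Fin m → M) (σ : Perm (Fin (m+1))) : M :=
  ((redWord σ).map T).prod

variable {m : ℕ}

@[simp] lemma s_castSucc (i : Fin m) : s i i.castSucc = i.succ := by simp [s]
@[simp] lemma s_succ (i : Fin m) : s i i.succ = i.castSucc := by simp [s]
lemma s_ne (i : Fin m) {x : Fin (m+1)} (h1 : x ≠ i.castSucc) (h2 : x ≠ i.succ) : s i x = x := by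
  unfold s; exact swap_apply_of_ne_of_ne h1 h2
@[simp] lemma s_mul_self (i : Fin m) : s i * s i = 1 := by simp [s]
@[simp] lemma s_inv (i : Fin m) : (s i)⁻¹ = s i := by simp [s]
@[simp] lemma s_s (i : Fin m) (x : Fin (m+1)) : s i (s i x) = x := by simp [s]
lemma s_mul_s_mul (i : Fin m) (σ : Perm (Fin (m+1))) : s i * (s i * σ) = σ := by
  rw [← mul_assoc, s_mul_self, one_mul]
lemma inv_s_mul_apply (i : Fin m) (σ : Perm (Fin (m+1))) (x : Fin (m+1)) :
    (s i * σ)⁻¹ x = σ⁻¹ (s i x) := by simp [mul_inv_rev]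

lemma s_lt (i : Fin m) {x y : Fin (m+1)} (h : x < y)
    (hne : ¬ (x = i.castSucc ∧ y = i.succ)) : s i x < s i y := by
  unfold s
  rw [swap_apply_def, swap_apply_def]
  rw [Fin.lt_def] at h ⊢
  simp only [Fin.ext_iff, Fin.val_castSucc, Fin.val_succ] at hne ⊢
  split_ifs <;> (try simp only [Fin.val_castSucc, Fin.val_succ] at *) <;> omega

/-- the inversion set -/
def Inv (σ : Perm (Fin (m+1))) : Finset (Fin (m+1) × Fin (m+1)) :=
  Finset.univ.filter (fun p => p.1 < p.2 ∧ σ⁻¹ p.2 < σ⁻¹ p.1)
/-- number of inversions -/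
def inv (σ : Perm (Fin (m+1))) : ℕ := (Inv σ).card

lemma mem_Inv (σ : Perm (Fin (m+1))) (p : Fin (m+1) × Fin (m+1)) :
    p ∈ Inv σ ↔ p.1 < p.2 ∧ σ⁻¹ p.2 < σ⁻¹ p.1 := by simp [Inv]

lemma inv_asc (i : Fin m) (σ : Perm (Fin (m+1))) (h : σ⁻¹ i.castSucc < σ⁻¹ i.succ) :
    inv (s i * σ) = inv σ + 1 := by
  have h1 : (i.castSucc, i.succ) ∈ Inv (s i * σ) := by
    rw [mem_Inv]; refine ⟨Fin.castSucc_lt_succ, ?_⟩
    simpa [inv_s_mul_apply] using h
  have h2 : ((Inv (s i * σ)).erase (i.castSucc, i.succ)).card = (Inv σ).card := by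
    apply Finset.card_nbij' (fun p => (s i p.1, s i p.2)) (fun p => (s i p.1, s i p.2))
    · intro p hp
      rw [Finset.mem_coe, Finset.mem_erase, mem_Inv] at hp
      rw [Finset.mem_coe, mem_Inv]
      obtain ⟨hne, hlt, hi⟩ := hp
      refine ⟨s_lt i hlt (fun hh => hne (Prod.ext hh.1 hh.2)), ?_⟩
      simpa [inv_s_mul_apply] using hi
    · intro p hp
      rw [Finset.mem_coe, mem_Inv] at hp
      rw [Finset.mem_coe, Finset.mem_erase, mem_Inv]
      obtain ⟨hlt, hi⟩ := hp
      refine ⟨?_, s_lt i hlt ?_, ?_⟩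
      · intro hh
        have e1 : p.1 = i.succ := by
          have := congrArg Prod.fst hh; simp only at this
          rw [← s_s i p.1, this]; simp
        have e2 : p.2 = i.castSucc := by
          have := congrArg Prod.snd hh; simp only at this
          rw [← s_s i p.2, this]; simp
        rw [e1, e2] at hlt
        exact absurd hlt (not_lt.mpr (Fin.castSucc_lt_succ).le)
      · rintro ⟨e1, e2⟩
        rw [e1, e2] at hi
        exact absurd h (not_lt.mpr hi.le)
      · simpa [inv_s_mul_apply] using hi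
    · intro p _; simp
    · intro p _; simp
  unfold inv
  rw [← h2, Finset.card_erase_add_one h1]

lemma inv_desc (i : Fin m) (σ : Perm (Fin (m+1))) (h : σ⁻¹ i.succ < σ⁻¹ i.castSucc) :
    inv (s i * σ) + 1 = inv σ := by
  have := inv_asc i (s i * σ) (by simpa [inv_s_mul_apply] using h)
  rw [s_mul_s_mul] at this
  exact this.symm

lemma asc_or_desc (i : Fin m) (σ : Perm (Fin (m+1))) :
    σ⁻¹ i.castSucc < σ⁻¹ i.succ ∨ σ⁻¹ i.succ < σ⁻¹ i.castSucc := by
  apply lt_or_gt_of_ne
  intro h
  have := σ⁻¹.injective h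
  simp [Fin.ext_iff] at this

lemma inv_one : inv (1 : Perm (Fin (m+1))) = 0 := by
  unfold inv Inv
  rw [Finset.card_eq_zero, Finset.filter_eq_empty_iff]
  intro p _ h
  have h2 := h.2
  simp only [_root_.inv_one, Perm.coe_one, id_eq] at h2
  exact absurd h.1 (not_lt.mpr h2.le)

lemma wp_cons (i : Fin m) (w : List (Fin m)) : wp (i :: w) = s i * wp w := by simp [wp]
lemma wp_nil : wp ([] : List (Fin m)) = 1 := by simp [wp]
lemma wp_append (u w : List (Fin m)) : wp (u ++ w) = wp u * wp w := by simp [wp]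

lemma wp_reverse (w : List (Fin m)) : wp w.reverse = (wp w)⁻¹ := by
  induction w with
  | nil => simp [wp]
  | cons i w ih =>
    rw [List.reverse_cons, wp_append, ih, wp_cons i w, mul_inv_rev, wp_cons, wp_nil, mul_one, s_inv]

lemma inv_wp_le (w : List (Fin m)) : inv (wp w) ≤ w.length := by
  induction w with
  | nil => rw [wp_nil, inv_one]; simp
  | cons i w ih =>
    rw [wp_cons, List.length_cons]
    rcases asc_or_desc i (wp w) with h | h
    · rw [inv_asc i _ h]; omega
    · have := inv_desc i _ h; omega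

lemma perm_eq_one_of_strictMono {n : ℕ} (σ : Perm (Fin n)) (h : StrictMono σ) : σ = 1 := by
  have : (σ : Fin n → Fin n) = id := by
    apply (StrictMono.range_inj h strictMono_id).mp
    rw [σ.surjective.range_eq]; simp
  ext x; rw [this]; simp

lemma eq_one_of_no_desc (σ : Perm (Fin (m+1)))
    (h : ∀ i : Fin m, σ⁻¹ i.castSucc < σ⁻¹ i.succ) : σ = 1 := by
  have := perm_eq_one_of_strictMono σ⁻¹ (Fin.strictMono_iff_lt_succ.mpr h)
  rwa [inv_eq_one] at this

lemma exists_red (σ : Perm (Fin (m+1))) : ∃ w : List (Fin m), wp w = σ ∧ w.length = inv σ := by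
  induction hn : inv σ using Nat.strong_induction_on generalizing σ with
  | _ n ih =>
    by_cases h : ∀ i : Fin m, σ⁻¹ i.castSucc < σ⁻¹ i.succ
    · refine ⟨[], ?_, ?_⟩
      · rw [wp_nil, eq_one_of_no_desc σ h]
      · rw [← hn, eq_one_of_no_desc σ h, inv_one]; rfl
    · push Not at h
      obtain ⟨i, hi⟩ := h
      have hd : σ⁻¹ i.succ < σ⁻¹ i.castSucc := by
        rcases asc_or_desc i σ with h | h
        · exact absurd h (not_lt.mpr hi)
        · exact h
      have h1 := inv_desc i σ hd
      obtain ⟨w, hw1, hw2⟩ := ih (inv (s i * σ)) (by omega) (s i * σ) rfl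
      refine ⟨i :: w, ?_, ?_⟩
      · rw [wp_cons, hw1, s_mul_s_mul]
      · rw [List.length_cons, hw2]; omega

lemma inv_inv_perm (σ : Perm (Fin (m+1))) : inv σ⁻¹ = inv σ := by
  have key : ∀ τ : Perm (Fin (m+1)), inv τ⁻¹ ≤ inv τ := by
    intro τ
    obtain ⟨w, hw1, hw2⟩ := exists_red τ
    have := inv_wp_le w.reverse
    rw [wp_reverse, hw1, List.length_reverse, hw2] at this
    exact this
  apply le_antisymm (key σ)
  have := key σ⁻¹
  rwa [inv_inv] at this

lemma len_eq_inv (σ : Perm (Fin (m+1))) : len σ = inv σ := by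
  unfold len
  apply le_antisymm
  · apply Nat.sInf_le
    obtain ⟨w, h1, h2⟩ := exists_red σ
    exact ⟨w, h2, h1⟩
  · apply le_csInf
    · obtain ⟨w, h1, h2⟩ := exists_red σ
      exact ⟨_, w, rfl, h1⟩
    · rintro k ⟨w, rfl, rfl⟩
      exact inv_wp_le w

lemma redWord_spec (σ : Perm (Fin (m+1))) : wp (redWord σ) = σ ∧ (redWord σ).length = inv σ := by
  have h : ∃ w : List (Fin m), wp w = σ ∧ w.length = len σ := by
    obtain ⟨w, h1, h2⟩ := exists_red σ
    exact ⟨w, h1, by rw [h2, len_eq_inv]⟩
  have := Classical.epsilon_spec h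
  unfold redWord
  rw [← len_eq_inv]
  exact this

lemma inv_asc_right (i : Fin m) (σ : Perm (Fin (m+1))) (h : σ i.castSucc < σ i.succ) :
    inv (σ * s i) = inv σ + 1 := by
  rw [← inv_inv_perm (σ * s i), mul_inv_rev, s_inv, inv_asc i σ⁻¹ (by simpa using h), inv_inv_perm]

lemma inv_desc_right (i : Fin m) (σ : Perm (Fin (m+1))) (h : σ i.succ < σ i.castSucc) :
    inv (σ * s i) + 1 = inv σ := by
  rw [← inv_inv_perm (σ * s i), mul_inv_rev, s_inv, inv_desc i σ⁻¹ (by simpa using h), inv_inv_perm]

lemma s_comm (i j : Fin m) (h : (i:ℕ) + 1 < j) : s i * s j = s j * s i := by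
  conv_lhs => rw [show s j = swap j.castSucc j.succ from rfl, mul_swap_eq_swap_mul]
  rw [s_ne i, s_ne i] <;> first | rfl | (intro hh; simp [Fin.ext_iff] at hh; omega)

lemma s_braid (i j : Fin m) (h : (i:ℕ) + 1 = j) : s i * s j * s i = s j * s i * s j := by
  have e : j.castSucc = i.succ := by ext; simp; omega
  have h1 : s i * s j = swap i.castSucc j.succ * s i := by
    conv_lhs => rw [show s j = swap j.castSucc j.succ from rfl, mul_swap_eq_swap_mul]
    rw [e, s_succ, s_ne i (x := j.succ)] <;> (intro hh; simp [Fin.ext_iff] at hh; omega)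
  have h2 : s j * s i = swap i.castSucc j.succ * s j := by
    conv_lhs => rw [show s i = swap i.castSucc i.succ from rfl, mul_swap_eq_swap_mul]
    rw [← e, s_castSucc, s_ne j (x := i.castSucc)] <;> (intro hh; simp [Fin.ext_iff] at hh; omega)
  rw [h1, h2, mul_assoc, mul_assoc, s_mul_self, s_mul_self]

/-- the braid relations in a monoid -/
structure Braid {M : Type*} [Monoid M] (T : Fin m → M) : Prop where
  comm : ∀ i j : Fin m, (i:ℕ) + 1 < j → T i * T j = T j * T i
  braid : ∀ i j : Fin m, (i:ℕ) + 1 = j → T i * T j * T i = T j * T i * T j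

section mats
variable {M : Type*} [Monoid M] {T : Fin m → M}

lemma red_cons {i : Fin m} {w : List (Fin m)} (h : (i :: w).length = inv (wp (i :: w))) :
    w.length = inv (wp w) ∧ (wp (i :: w))⁻¹ i.succ < (wp (i :: w))⁻¹ i.castSucc := by
  rw [wp_cons, List.length_cons] at h
  have hle := inv_wp_le w
  rcases asc_or_desc i (wp w) with h1 | h1
  · rw [inv_asc i _ h1] at h
    refine ⟨by omega, ?_⟩
    rw [wp_cons]; simpa [inv_s_mul_apply] using h1
  · have := inv_desc i _ h1; omega

theorem matsumoto (hT : Braid T) : ∀ n : ℕ, ∀ w u : List (Fin m), w.length = n → u.length = n →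
    wp w = wp u → inv (wp w) = n → (w.map T).prod = (u.map T).prod := by
  intro n
  induction n using Nat.strong_induction_on with
  | _ n ih =>
  -- the case of first letters i < j
  have key : ∀ (i j : Fin m) (w u : List (Fin m)), i < j → (i :: w).length = n → (j :: u).length = n →
      wp (i :: w) = wp (j :: u) → inv (wp (i :: w)) = n →
      ((i :: w).map T).prod = ((j :: u).map T).prod := by
    intro i j w u hij hw hu hwu hn
    set σ := wp (i :: w) with hσ
    obtain ⟨rw1, dw⟩ := red_cons (i := i) (w := w) (by rw [hw, ← hσ, hn])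
    obtain ⟨ru1, du⟩ := red_cons (i := j) (w := u) (by rw [hu, ← hwu, hn])
    rw [← hσ] at dw
    rw [← hwu] at du
    have hwσ : wp w = s i * σ := by rw [hσ, wp_cons, s_mul_s_mul]
    have huσ : wp u = s j * σ := by rw [hwu, wp_cons, s_mul_s_mul]
    simp only [List.length_cons] at hw hu
    simp only [List.map_cons, List.prod_cons]
    have i1 := inv_desc i σ dw
    have j1 := inv_desc j σ du
    rcases Nat.lt_or_ge ((i:ℕ) + 1) j with h | h
    · -- commuting
      have di : (s i * σ)⁻¹ j.succ < (s i * σ)⁻¹ j.castSucc := by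
        rw [inv_s_mul_apply, inv_s_mul_apply, s_ne i, s_ne i]
        · exact du
        all_goals (intro hh; simp [Fin.ext_iff] at hh; omega)
      have i2 := inv_desc j (s i * σ) di
      obtain ⟨v, hv1, hv2⟩ := exists_red (s j * (s i * σ))
      have e1 : (w.map T).prod = ((j :: v).map T).prod := by
        apply ih (n-1) (by omega) w (j :: v) (by omega) (by rw [List.length_cons]; omega)
        · rw [wp_cons, hv1, s_mul_s_mul, hwσ]
        · omega
      have e2 : (u.map T).prod = ((i :: v).map T).prod := by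
        apply ih (n-1) (by omega) u (i :: v) (by omega) (by rw [List.length_cons]; omega)
        · rw [wp_cons, hv1, huσ, ← mul_assoc (s i), s_comm i j h, mul_assoc (s j), s_mul_s_mul]
        · omega
      rw [e1, e2, List.map_cons, List.prod_cons, List.map_cons, List.prod_cons, ← mul_assoc,
        ← mul_assoc, hT.comm i j h]
    · -- braid
      have hji : (i:ℕ) + 1 = j := by have : (i:ℕ) < j := hij; omega
      have e : j.castSucc = i.succ := by ext; simp; omega
      have n1 : j.succ ≠ i.castSucc := by intro hh; simp [Fin.ext_iff] at hh; omega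
      have n2 : j.succ ≠ i.succ := by intro hh; simp [Fin.ext_iff] at hh; omega
      have n3 : i.castSucc ≠ j.castSucc := by intro hh; simp [Fin.ext_iff] at hh; omega
      have di : (s i * σ)⁻¹ j.succ < (s i * σ)⁻¹ j.castSucc := by
        rw [inv_s_mul_apply, inv_s_mul_apply, s_ne i n1 n2, e, s_succ]
        rw [e] at du
        exact du.trans dw
      have i2 := inv_desc j (s i * σ) di
      have di3 : (s j * (s i * σ))⁻¹ i.succ < (s j * (s i * σ))⁻¹ i.castSucc := by
        rw [inv_s_mul_apply, inv_s_mul_apply, inv_s_mul_apply, inv_s_mul_apply, ← e, s_castSucc,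
          s_ne i n1 n2, s_ne j n3 (Ne.symm n1), s_castSucc, ← e]
        exact du
      have i3 := inv_desc i (s j * (s i * σ)) di3
      obtain ⟨v, hv1, hv2⟩ := exists_red (s i * (s j * (s i * σ)))
      have hgrp : s i * (s j * (s i * σ)) = s j * (s i * (s j * σ)) := by
        simp only [← mul_assoc]; rw [s_braid i j hji]
      have e1 : (w.map T).prod = ((j :: i :: v).map T).prod := by
        apply ih (n-1) (by omega) w (j :: i :: v) (by omega)
          (by rw [List.length_cons, List.length_cons]; omega)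
        · rw [wp_cons, wp_cons, hv1, s_mul_s_mul, s_mul_s_mul, hwσ]
        · omega
      have e2 : (u.map T).prod = ((i :: j :: v).map T).prod := by
        apply ih (n-1) (by omega) u (i :: j :: v) (by omega)
          (by rw [List.length_cons, List.length_cons]; omega)
        · rw [wp_cons, wp_cons, hv1, hgrp, s_mul_s_mul, s_mul_s_mul, huσ]
        · omega
      rw [e1, e2]
      simp only [List.map_cons, List.prod_cons]
      simp only [← mul_assoc]; rw [hT.braid i j hji]
  intro w u hw hu hwu hn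
  match w, u, hw, hu, hwu, hn with
  | [], [], _, _, _, _ => rfl
  | [], j :: u, hw, hu, _, _ => simp at hw hu; omega
  | i :: w, [], hw, hu, _, _ => simp at hw hu; omega
  | i :: w, j :: u, hw, hu, hwu, hn =>
    rcases lt_trichotomy i j with h | h | h
    · exact key i j w u h hw hu hwu hn
    · subst h
      obtain ⟨rw1, dw⟩ := red_cons (i := i) (w := w) (by rw [hw, hn])
      have h1 : wp w = wp u := by
        rw [wp_cons, wp_cons] at hwu; exact mul_left_cancel hwu
      simp only [List.length_cons] at hw hu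
      simp only [List.map_cons, List.prod_cons]
      rw [ih (n-1) (by omega) w u (by omega) (by omega) h1 (by omega)]
    · exact (key j i u w h hu hw hwu.symm (by rw [← hwu]; exact hn)).symm

lemma Tp_eq_of_red (hT : Braid T) (w : List (Fin m)) (h : w.length = inv (wp w)) :
    Tp T (wp w) = (w.map T).prod := by
  obtain ⟨h1, h2⟩ := redWord_spec (wp w)
  exact matsumoto hT _ _ _ h2 h h1 (by rw [h1])

lemma Tp_one : Tp T (1 : Perm (Fin (m+1))) = 1 := by
  obtain ⟨h1, h2⟩ := redWord_spec (1 : Perm (Fin (m+1)))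
  rw [inv_one] at h2
  unfold Tp
  rw [List.length_eq_zero_iff.mp h2]; simp

lemma Tp_asc (hT : Braid T) (i : Fin m) (σ : Perm (Fin (m+1)))
    (h : σ⁻¹ i.castSucc < σ⁻¹ i.succ) : Tp T (s i * σ) = T i * Tp T σ := by
  obtain ⟨h1, h2⟩ := redWord_spec σ
  have := Tp_eq_of_red hT (i :: redWord σ) (by
    rw [List.length_cons, wp_cons, h1, h2, inv_asc i σ h])
  rw [wp_cons, h1] at this
  rw [this]; simp [Tp]

lemma Tp_asc_right (hT : Braid T) (i : Fin m) (σ : Perm (Fin (m+1)))
    (h : σ i.castSucc < σ i.succ) : Tp T (σ * s i) = Tp T σ * T i := by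
  obtain ⟨h1, h2⟩ := redWord_spec σ
  have e : wp (redWord σ ++ [i]) = σ * s i := by rw [wp_append, h1]; simp [wp]
  have := Tp_eq_of_red hT (redWord σ ++ [i]) (by
    rw [e, List.length_append, h2, inv_asc_right i σ h]; rfl)
  rw [e] at this
  rw [this]; simp [Tp]

end mats

end Q93HK
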