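import Pool.Agent.Q93.HK.Def

namespace Q93HK

open Equiv

section ps
variable {N : ℕ} (μ : Fin (N+1) → ℕ)

lemma ps_zero : ps μ 0 = 0 := by simp [ps]

lemma ps_succ (k : ℕ) (hk : k < N + 1) : ps μ (k+1) = ps μ k + μ ⟨k, hk⟩ := by
  unfold ps
  have : Finset.univ.filter (fun j : Fin (N+1) => (j:ℕ) < k + 1) =
      insert ⟨k, hk⟩ (Finset.univ.filter (fun j : Fin (N+1) => (j:ℕ) < k)) := by
    ext j
    simp only [Finset.mem_filter, Finset.mem_univ, true_and, Finset.mem_insert, Fin.ext_iff]
    omega
  rw [this, Finset.sum_insert (by simp), add_comm]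

lemma ps_top : ps μ (N+1) = ∑ k, μ k := by
  unfold ps
  congr 1
  ext j
  have := j.isLt
  simp only [Finset.mem_filter, Finset.mem_univ, true_and, iff_true]
  exact this

variable (hμ : ∀ k, 0 < μ k)
include hμ

lemma ps_lt (k l : ℕ) (hkl : k < l) (hl : l ≤ N + 1) : ps μ k < ps μ l := by
  induction l with
  | zero => omega
  | succ l ih =>
    rw [ps_succ μ l (by omega)]
    have := hμ ⟨l, by omega⟩
    rcases Nat.lt_succ_iff_lt_or_eq.mp hkl with h | h
    · have := ih h (by omega); omega
    · subst h; omega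

lemma ps_le_iff (k l : ℕ) (hk : k ≤ N + 1) (hl : l ≤ N + 1) : ps μ k ≤ ps μ l ↔ k ≤ l := by
  constructor
  · intro h
    by_contra hc
    push Not at hc
    have := ps_lt μ hμ l k hc hk
    omega
  · intro h
    rcases Nat.lt_or_ge k l with h1 | h1
    · exact (ps_lt μ hμ k l h1 hl).le
    · have : k = l := by omega
      rw [this]

lemma le_ps (k : ℕ) (hk : k ≤ N + 1) : k ≤ ps μ k := by
  induction k with
  | zero => omega
  | succ k ih => have := ps_lt μ hμ k (k+1) (by omega) hk; have := ih (by omega); omega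

end ps

/-- index of the block of `x` -/
def blk {N : ℕ} (μ : Fin (N+1) → ℕ) (x : ℕ) : ℕ := ((Finset.Icc 1 N).filter (fun k => ps μ k ≤ x)).card

section blk
variable {N : ℕ} (μ : Fin (N+1) → ℕ)

lemma blk_mono {x y : ℕ} (h : x ≤ y) : blk μ x ≤ blk μ y := by
  unfold blk
  apply Finset.card_le_card
  intro k hk
  simp only [Finset.mem_filter] at hk ⊢
  exact ⟨hk.1, by omega⟩

lemma blk_le (x : ℕ) : blk μ x ≤ N := by
  unfold blk
  refine (Finset.card_filter_le _ _).trans ?_
  simp

lemma blk_succ_iff (i : ℕ) : blk μ i = blk μ (i+1) ↔ ∀ k, 1 ≤ k → k ≤ N → ps μ k ≠ i + 1 := by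
  constructor
  · intro h k h1 h2 h3
    have hss : (Finset.Icc 1 N).filter (fun k => ps μ k ≤ i) ⊂
        (Finset.Icc 1 N).filter (fun k => ps μ k ≤ i + 1) := by
      rw [Finset.ssubset_iff_of_subset]
      · refine ⟨k, ?_, ?_⟩
        · simp only [Finset.mem_filter, Finset.mem_Icc]; omega
        · simp only [Finset.mem_filter, Finset.mem_Icc]; omega
      · intro k hk
        simp only [Finset.mem_filter] at hk ⊢
        exact ⟨hk.1, by omega⟩
    have := Finset.card_lt_card hss
    unfold blk at h
    omega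
  · intro h
    unfold blk
    congr 1
    ext k
    simp only [Finset.mem_filter, Finset.mem_Icc]
    constructor
    · rintro ⟨hk, h1⟩; exact ⟨hk, by omega⟩
    · rintro ⟨hk, h1⟩
      have := h k hk.1 hk.2
      exact ⟨hk, by omega⟩

variable (hμ : ∀ k, 0 < μ k)
include hμ

lemma blk_ps (k : ℕ) (hk : k ≤ N) : blk μ (ps μ k) = k := by
  unfold blk
  have : (Finset.Icc 1 N).filter (fun j => ps μ j ≤ ps μ k) = Finset.Icc 1 k := by
    ext j
    simp only [Finset.mem_filter, Finset.mem_Icc]
    constructor
    · rintro ⟨hj, h⟩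
      rw [ps_le_iff μ hμ j k (by omega) (by omega)] at h
      omega
    · intro hj
      refine ⟨by omega, ?_⟩
      rw [ps_le_iff μ hμ j k (by omega) (by omega)]
      omega
  rw [this]; simp

lemma blk_st (x : ℕ) (h : x ≠ ps μ (blk μ x)) : ∃ i, x = i + 1 ∧ blk μ i = blk μ (i+1) := by
  rcases Nat.eq_zero_or_pos x with h0 | h0
  · exfalso
    apply h
    have := blk_ps μ hμ 0 (by omega)
    rw [ps_zero] at this
    rw [h0, this, ps_zero]
  · refine ⟨x - 1, by omega, ?_⟩
    rw [blk_succ_iff]
    intro k h1 h2 h3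
    apply h
    have := blk_ps μ hμ k h2
    rw [h3, show x - 1 + 1 = x by omega] at this
    rw [this, h3]; omega

end blk

/-! ### the permutation `γ` -/

/-- `X` is the product over a reduced word of an element of `D` with the given values on `0..N` -/
def Good (m N : ℕ) (X : Hecke m) (val : ℕ → ℕ) : Prop :=
  ∃ w : List (Fin m), (w.map gen).prod = X ∧ w.length = inv (wp w) ∧ InP (β0 N) (wp w) ∧
    ∀ x : Fin (m+1), (x:ℕ) ≤ N → (wp w x : ℕ) = val x

lemma Good.step {m N : ℕ} {X : Hecke m} {val : ℕ → ℕ} (h : Good m N X val) (i : ℕ) (hi : i < m)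
    (hNm : N ≤ m) (a : ℕ) (ha : a ≤ N) (hva : val a = i) (hno : ∀ b, b ≤ N → val b ≠ i + 1)
    (hne : ∀ b, b ≤ N → b ≠ a → val b ≠ i) :
    Good m N (T1 m (i+1) * X) (Function.update val a (i+1)) := by
  obtain ⟨w, h1, h2, h3, h4⟩ := h
  set j : Fin m := ⟨i, hi⟩ with hj
  have e1 : (wp w)⁻¹ j.castSucc = ⟨a, by omega⟩ := by
    rw [Perm.inv_eq_iff_eq]
    apply Fin.ext
    rw [h4 _ (by simpa using ha)]
    simp [hj, hva]
  have e2 : N < ((wp w)⁻¹ j.succ : ℕ) := by
    by_contra hc
    push Not at hc
    have := h4 _ hc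
    have e : wp w ((wp w)⁻¹ j.succ) = j.succ := by simp
    rw [e] at this
    simp only [hj, Fin.val_succ] at this
    exact hno _ hc this.symm
  have hasc : (wp w)⁻¹ j.castSucc < (wp w)⁻¹ j.succ := by
    rw [e1, Fin.lt_def]
    change a < _
    omega
  refine ⟨j :: w, ?_, ?_, ?_, ?_⟩
  · rw [List.map_cons, List.prod_cons, h1]
    congr 1
    unfold T1
    rw [dif_pos ⟨by omega, by omega⟩]
    rfl
  · rw [List.length_cons, wp_cons, inv_asc j _ hasc, h2]
  · rw [wp_cons]
    apply InP_step h3
    rw [e1]
    unfold β0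
    rw [if_pos (by simpa using ha), if_neg (by omega)]
    omega
  · intro x hx
    rw [wp_cons, Perm.mul_apply]
    by_cases hxa : (x:ℕ) = a
    · have e3 : wp w x = j.castSucc := by
        apply Fin.ext; rw [h4 x hx, hxa, hva]; simp [hj]
      rw [e3, s_castSucc, hxa, Function.update_self]
      simp [hj]
    · rw [Function.update_of_ne hxa, s_ne j, h4 x hx]
      · intro hh
        have := congrArg (fun y : Fin (m+1) => (y:ℕ)) hh
        simp only [h4 x hx] at this
        exact hne x hx hxa (by rw [this]; simp [hj])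
      · intro hh
        have := congrArg (fun y : Fin (m+1) => (y:ℕ)) hh
        simp only [h4 x hx] at this
        exact hno x hx (by rw [this]; simp [hj])

lemma Good.congr {m N : ℕ} {X : Hecke m} {val val' : ℕ → ℕ} (h : Good m N X val)
    (hv : ∀ x, x ≤ N → val x = val' x) : Good m N X val' := by
  obtain ⟨w, h1, h2, h3, h4⟩ := h
  exact ⟨w, h1, h2, h3, fun x hx => by rw [h4 x hx, hv _ hx]⟩

lemma good_one (m N : ℕ) : Good m N 1 (fun x => x) := by
  refine ⟨[], by simp, ?_, ?_, ?_⟩
  · rw [wp_nil, inv_one]; rfl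
  · intro x y hxy _; rw [wp_nil]; simpa using hxy
  · intro x _; rw [wp_nil]; simp

lemma good_factor {m N : ℕ} {μ : Fin (N+1) → ℕ} (hμ : ∀ k, 0 < μ k) (hsum : ∑ k, μ k = m + 1)
    (k : ℕ) (hk1 : 1 ≤ k) (hkN : k ≤ N) (X : Hecke m)
    (h : Good m N X (fun x => if k < x then ps μ x else x)) (t : ℕ) (ht : k + t ≤ ps μ k) :
    Good m N ((((List.range' (k+1) t).reverse).map (T1 m)).prod * X)
      (fun x => if k < x then ps μ x else if x = k then k + t else x) := by
  have hNm : N ≤ m := by
    have := le_ps μ hμ (N+1) le_rfl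
    rw [ps_top, hsum] at this; omega
  have hpk : ps μ k < m + 1 := by
    have := ps_lt μ hμ k (N+1) (by omega) le_rfl
    rw [ps_top, hsum] at this; exact this
  induction t with
  | zero =>
    simp only [List.range'_zero, List.reverse_nil, List.map_nil, List.prod_nil, one_mul]
    apply h.congr
    intro x hx
    split_ifs <;> omega
  | succ t ih =>
    have h1 := (ih (by omega)).step (k + t) (by omega) hNm k hkN (by simp) (by
      intro b hb
      split_ifs with c1 c2
      · have := ps_lt μ hμ k b c1 (by omega); omega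
      · omega
      · omega) (by
      intro b hb hbk
      split_ifs with c1
      · have := ps_lt μ hμ k b c1 (by omega); omega
      · omega)
    rw [List.range'_concat, List.reverse_append, List.map_append, List.prod_append]
    simp only [List.reverse_cons, List.reverse_nil, List.nil_append, List.map_cons, List.map_nil,
      List.prod_cons, List.prod_nil, mul_one, one_mul]
    rw [mul_assoc, show k + 1 + t = k + t + 1 by omega]
    apply h1.congr
    intro x hx
    by_cases hxk : x = k
    · subst hxk; simp; omega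
    · rw [Function.update_of_ne hxk]
      split_ifs <;> omega

lemma good_gamma {m N : ℕ} {μ : Fin (N+1) → ℕ} (hμ : ∀ k, 0 < μ k) (hsum : ∑ k, μ k = m + 1)
    (r : ℕ) (hr : r ≤ N) :
    Good m N ((List.range' (N + 1 - r) r).map
      (fun k => (((List.range' (k+1) (ps μ k - k)).reverse).map (T1 m)).prod)).prod
      (fun x => if N - r < x then ps μ x else x) := by
  induction r with
  | zero =>
    simp only [List.range'_zero, List.map_nil, List.prod_nil]
    apply (good_one m N).congr
    intro x hx
    rw [if_neg (by omega)]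
  | succ r ih =>
    rw [List.range'_succ, List.map_cons, List.prod_cons]
    have h0 := ih (by omega)
    rw [show N + 1 - r = N - r + 1 by omega] at h0
    rw [show N + 1 - (r + 1) = N - r by omega]
    have h1 := le_ps μ hμ (N - r) (by omega)
    have h2 := good_factor hμ hsum (N - r) (by omega) (by omega) _ h0 (ps μ (N - r) - (N - r)) (by omega)
    apply h2.congr
    intro x hx
    split_ifs with c1 c2 c3 c4 c5
    · rfl
    · omega
    · subst c3; omega
    · omega
    · omega
    · rfl

end Q93HK
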