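import Pool.Agent.Q93.HK.Main

/-!
The Iwahori–Hecke algebra `H(S_n)`, `n = m + 1`, over `ℂ(q)` and the elements `e_μ`, `T_γ`, `A_{N+1}`,
`X^μ_N`.
-/

namespace Q93HK

open Equiv

/-- the field `ℂ(q)` -/
abbrev Kq : Type := RatFunc ℂ

/-- the indeterminate `q` -/
noncomputable def qq : Kq := RatFunc.X

/-- The defining relations of the Hecke algebra; the generator with index `i : Fin m` is `T_{i+1}`. -/
inductive HeckeRel (m : ℕ) : FreeAlgebra Kq (Fin m) → FreeAlgebra Kq (Fin m) → Prop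
  | braid (i j : Fin m) (h : (i:ℕ) + 1 = j) :
      HeckeRel m (FreeAlgebra.ι Kq i * FreeAlgebra.ι Kq j * FreeAlgebra.ι Kq i)
        (FreeAlgebra.ι Kq j * FreeAlgebra.ι Kq i * FreeAlgebra.ι Kq j)
  | comm (i j : Fin m) (h : (i:ℕ) + 1 < j) :
      HeckeRel m (FreeAlgebra.ι Kq i * FreeAlgebra.ι Kq j) (FreeAlgebra.ι Kq j * FreeAlgebra.ι Kq i)
  | quad (i : Fin m) :
      HeckeRel m ((FreeAlgebra.ι Kq i - algebraMap Kq _ qq) *
        (FreeAlgebra.ι Kq i + algebraMap Kq _ qq⁻¹)) 0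

/-- The Hecke algebra `H(S_{m+1})` over `ℂ(q)`. -/
def Hecke (m : ℕ) : Type := RingQuot (HeckeRel m)

noncomputable instance instRingHecke (m : ℕ) : Ring (Hecke m) := RingQuot.instRing (HeckeRel m)
noncomputable instance instAlgebraHecke (m : ℕ) : Algebra Kq (Hecke m) :=
  RingQuot.instAlgebra (HeckeRel m)

/-- the quotient map from the free algebra -/
noncomputable def quo (m : ℕ) : FreeAlgebra Kq (Fin m) →ₐ[Kq] Hecke m :=
  RingQuot.mkAlgHom Kq (HeckeRel m)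

/-- the generators (`gen i` is `T_{i+1}`) -/
noncomputable def gen {m : ℕ} (i : Fin m) : Hecke m := quo m (FreeAlgebra.ι Kq i)

/-- `T_j` for `1 ≤ j ≤ m` (and `1` for the other `j`, which do not occur below) -/
noncomputable def T1 (m : ℕ) (j : ℕ) : Hecke m :=
  if h : 1 ≤ j ∧ j - 1 < m then gen ⟨j - 1, h.2⟩ else 1

/-- `m_k = μ_1 + … + μ_k` -/
def ps {N : ℕ} (μ : Fin (N+1) → ℕ) (k : ℕ) : ℕ := ∑ j ∈ Finset.univ.filter (fun j : Fin (N+1) => (j:ℕ) < k), μ j

/-- the Young subgroup `S_μ`, generated by the `s_i`, `i ∈ J` -/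
def young (m : ℕ) {N : ℕ} (μ : Fin (N+1) → ℕ) : Subgroup (Perm (Fin (m+1))) :=
  Subgroup.closure {σ | ∃ i : Fin m, (∀ k, 1 ≤ k → k ≤ N → ps μ k ≠ (i:ℕ) + 1) ∧ σ = s i}

open Classical in
/-- the idempotent `e_μ` -/
noncomputable def eμ (m : ℕ) {N : ℕ} (μ : Fin (N+1) → ℕ) : Hecke m :=
  (∑ σ ∈ Finset.univ.filter (fun σ => σ ∈ young m μ), qq ^ (2 * len σ))⁻¹ •
    ∑ σ ∈ Finset.univ.filter (fun σ => σ ∈ young m μ), qq ^ len σ • Tp gen σ

/-- `T_{γ_μ} = ∏_{k=1}^N (T_{m_k} T_{m_k - 1} ⋯ T_{k+1})` -/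
noncomputable def Tγ (m : ℕ) {N : ℕ} (μ : Fin (N+1) → ℕ) : Hecke m :=
  ((List.range' 1 N).map (fun k => (((List.range' (k+1) (ps μ k - k)).reverse).map (T1 m)).prod)).prod

/-- the `q`-antisymmetriser `A_{N+1}` of `H(S_{N+1})`, viewed in `H(S_{m+1})` via `T_i ↦ T_i` -/
noncomputable def antisym (m N : ℕ) : Hecke m :=
  ∑ σ : Perm (Fin (N+1)), ((-1) ^ len σ * qq ^ (((N * (N+1) / 2 : ℕ) : ℤ) - (len σ : ℤ))) •
    Tp (fun i : Fin N => T1 m ((i:ℕ) + 1)) σ

/-- `X^μ_N` -/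
noncomputable def Xμ (m : ℕ) {N : ℕ} (μ : Fin (N+1) → ℕ) : Hecke m :=
  eμ m μ * Tγ m μ * antisym m N * Ring.inverse (Tγ m μ) * eμ m μ

/-! ### verification of the hypotheses -/

lemma hqq : ∀ p : Polynomial ℕ, p ≠ 0 → p.eval₂ (Nat.castRingHom Kq) qq ≠ 0 := by
  intro p hp h
  have h1 : algebraMap (Polynomial ℂ) Kq (p.map (Nat.castRingHom ℂ)) = p.eval₂ (Nat.castRingHom Kq) qq := by
    unfold Polynomial.map
    rw [Polynomial.hom_eval₂, RatFunc.algebraMap_X]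
    congr 1
    exact Subsingleton.elim _ _
  rw [← h1] at h
  have h2 : p.map (Nat.castRingHom ℂ) = 0 := by
    apply RatFunc.algebraMap_injective ℂ
    rw [h, map_zero]
  have h3 : Function.Injective (Nat.castRingHom ℂ) := by
    intro a b hab; simpa using hab
  exact hp ((Polynomial.map_eq_zero_iff h3).mp h2)

lemma qq_ne : qq ≠ 0 := q_ne hqq

lemma quad_aux {K H : Type*} [Field K] [Ring H] [Algebra K H] (q : K) (hq : q ≠ 0) (x : H)
    (h : (x - algebraMap K H q) * (x + algebraMap K H q⁻¹) = 0) : x * x = 1 + (q - q⁻¹) • x := by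
  rw [Algebra.algebraMap_eq_smul_one, Algebra.algebraMap_eq_smul_one] at h
  have e : (x - q • (1 : H)) * (x + q⁻¹ • 1) = x * x - ((q - q⁻¹) • x + 1) := by
    rw [sub_mul, mul_add, mul_add, smul_mul_assoc, one_mul, smul_mul_assoc, one_mul,
      mul_smul_comm, mul_one, smul_smul, mul_inv_cancel₀ hq, one_smul, sub_smul]
    abel
  rw [e, sub_eq_zero] at h
  rw [h, add_comm]

lemma quo_rel {m : ℕ} {x y : FreeAlgebra Kq (Fin m)} (h : HeckeRel m x y) : quo m x = quo m y :=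
  RingQuot.mkAlgHom_rel Kq h

lemma hrel (m : ℕ) : HRel qq (gen (m := m)) := by
  refine { comm := ?_, braid := ?_, quad := ?_ }
  · intro i j h
    have := quo_rel (HeckeRel.comm i j h)
    rwa [map_mul, map_mul] at this
  · intro i j h
    have := quo_rel (HeckeRel.braid i j h)
    rwa [map_mul, map_mul, map_mul, map_mul] at this
  · intro i
    have := quo_rel (HeckeRel.quad i)
    rw [map_mul, map_sub, map_add, map_zero, AlgHom.commutes, AlgHom.commutes] at this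
    exact quad_aux qq qq_ne _ this

lemma hgen (m : ℕ) : Algebra.adjoin Kq (Set.range (gen (m := m))) = ⊤ := by
  have h1 : Set.range (gen (m := m)) = (quo m) '' (Set.range (FreeAlgebra.ι Kq)) := by
    rw [← Set.range_comp]; rfl
  rw [h1, ← AlgHom.map_adjoin, FreeAlgebra.adjoin_range_ι, Algebra.map_top, AlgHom.range_eq_top]
  exact RingQuot.mkAlgHom_surjective Kq (HeckeRel m)

end Q93HK
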