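import Pool.Agent.Q93.HK.Comb

namespace Q93HK

open Equiv

section young
variable {m N : ℕ} {μ : Fin (N+1) → ℕ}

/-- `i ∈ J` iff `i` and `i+1` are in the same block -/
lemma J_iff (i : Fin m) : (∀ k, 1 ≤ k → k ≤ N → ps μ k ≠ (i:ℕ) + 1) ↔
    blk μ (i.castSucc : Fin (m+1)) = blk μ (i.succ : Fin (m+1)) := by
  rw [Fin.val_castSucc, Fin.val_succ, blk_succ_iff]

lemma s_mem (i : Fin m) (h : blk μ (i.castSucc : Fin (m+1)) = blk μ (i.succ : Fin (m+1))) :
    s i ∈ young m μ := Subgroup.subset_closure ⟨i, J_iff i |>.mpr h, rfl⟩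

lemma young_blk (σ : Perm (Fin (m+1))) (h : σ ∈ young m μ) :
    ∀ x : Fin (m+1), blk μ (σ x : Fin (m+1)) = blk μ x := by
  unfold young at h
  induction h using Subgroup.closure_induction with
  | mem σ h =>
    obtain ⟨i, hi, rfl⟩ := h
    rw [J_iff] at hi
    intro x
    by_cases h1 : x = i.castSucc
    · rw [h1, s_castSucc, hi]
    by_cases h2 : x = i.succ
    · rw [h2, s_succ, hi]
    rw [s_ne i h1 h2]
  | one => intro x; rfl
  | mul a b _ _ ha hb => intro x; rw [Perm.mul_apply, ha, hb]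
  | inv a _ ha =>
    intro x
    have := ha (a⁻¹ x)
    have e : a (a⁻¹ x) = x := by simp
    rw [e] at this
    exact this.symm

lemma young_mul (F : Hecke m)
    (hF : ∀ i : Fin m, blk μ (i.castSucc : Fin (m+1)) = blk μ (i.succ : Fin (m+1)) →
      gen i * F = qq • F) (σ : Perm (Fin (m+1))) (hσ : σ ∈ young m μ) :
    Tp gen σ * F = qq ^ inv σ • F := by
  induction hn : inv σ using Nat.strong_induction_on generalizing σ with
  | _ n ih =>
  subst hn
  by_cases h : ∀ i : Fin m, σ⁻¹ i.castSucc < σ⁻¹ i.succ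
  · rw [eq_one_of_no_desc σ h, Tp_one, inv_one, one_mul, pow_zero, one_smul]
  · push Not at h
    obtain ⟨i, hi⟩ := h
    have hd : σ⁻¹ i.succ < σ⁻¹ i.castSucc := by
      rcases asc_or_desc i σ with h | h
      · exact absurd h (not_lt.mpr hi)
      · exact h
    have hb := young_blk σ⁻¹ (Subgroup.inv_mem _ hσ)
    have hJ : blk μ (i.castSucc : Fin (m+1)) = blk μ (i.succ : Fin (m+1)) := by
      apply le_antisymm
      · apply blk_mono
        simp
      · rw [← hb i.succ, ← hb i.castSucc]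
        apply blk_mono
        exact hd.le
    have h1 := inv_desc i σ hd
    have h2 := ih _ (by omega) (s i * σ) (Subgroup.mul_mem _ (s_mem i hJ) hσ) rfl
    have h3 := Tp_asc (hrel m).toBraid i (s i * σ) (by simpa [inv_s_mul_apply] using hd)
    rw [s_mul_s_mul] at h3
    rw [h3, mul_assoc, h2, mul_smul_comm, hF i hJ, smul_smul, ← h1, pow_succ]

end young

lemma quad_q {K : Type*} [Field K] {q : K} (hq : q ≠ 0) : q * q = 1 + (q - q⁻¹) * q := by
  field_simp; ring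

lemma quad_q' {K : Type*} [Field K] {q : K} (hq : q ≠ 0) :
    (-q⁻¹) * (-q⁻¹) = 1 + (q - q⁻¹) * (-q⁻¹) := by
  field_simp; ring

section anti
variable {m N : ℕ}

lemma T1_eq (hNm : N ≤ m) (i : Fin N) : T1 m ((i:ℕ) + 1) = gen ⟨i, by omega⟩ := by
  unfold T1
  rw [dif_pos ⟨by omega, by omega⟩]
  rfl

lemma hrel' (hNm : N ≤ m) : HRel qq (fun i : Fin N => T1 m ((i:ℕ) + 1)) := by
  refine { comm := ?_, braid := ?_, quad := ?_ }
  · intro i j h
    rw [T1_eq hNm, T1_eq hNm]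
    exact (hrel m).comm _ _ h
  · intro i j h
    rw [T1_eq hNm, T1_eq hNm]
    exact (hrel m).braid _ _ h
  · intro i
    rw [T1_eq hNm]
    exact (hrel m).quad _

lemma antisym_eq : antisym m N = qq ^ (N * (N+1) / 2) •
    ∑ σ : Perm (Fin (N+1)), (-qq⁻¹) ^ inv σ • Tp (fun i : Fin N => T1 m ((i:ℕ) + 1)) σ := by
  unfold antisym
  rw [Finset.smul_sum]
  apply Finset.sum_congr rfl
  intro σ _
  rw [smul_smul, len_eq_inv]
  congr 1
  rw [zpow_sub₀ qq_ne, zpow_natCast, zpow_natCast, show (-qq⁻¹) = (-1) * qq⁻¹ by ring, mul_pow,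
    inv_pow, div_eq_mul_inv]
  ring

end anti

lemma gen_EE {ι K H : Type*} [Field K] [Ring H] [Algebra K H] (s : Finset ι) (c : K) (a : ι → K)
    (x : ι → H) (h : ∀ i ∈ s, x i * (∑ i ∈ s, a i • x i) = a i • ∑ i ∈ s, a i • x i) :
    (c • ∑ i ∈ s, a i • x i) * (c • ∑ i ∈ s, a i • x i) =
      (c * ∑ i ∈ s, a i * a i) • (c • ∑ i ∈ s, a i • x i) := by
  have h1 : (∑ i ∈ s, a i • x i) * (∑ i ∈ s, a i • x i) = (∑ i ∈ s, a i * a i) • ∑ i ∈ s, a i • x i := by
    conv_lhs => rw [Finset.sum_mul]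
    rw [Finset.sum_smul]
    apply Finset.sum_congr rfl
    intro i hi
    rw [smul_mul_assoc, h i hi, smul_smul]
  rw [smul_mul_assoc, mul_smul_comm, h1, smul_smul, smul_smul, smul_smul]
  congr 1; ring

lemma gen_comm {ι K H : Type*} [Field K] [Ring H] [Algebra K H] (s : Finset ι) (c : K) (a : ι → K)
    (x : ι → H) (y : H) (h : ∀ i ∈ s, y * x i = x i * y) :
    y * (c • ∑ i ∈ s, a i • x i) = (c • ∑ i ∈ s, a i • x i) * y := by
  rw [mul_smul_comm, smul_mul_assoc, Finset.mul_sum, Finset.sum_mul]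
  congr 1
  apply Finset.sum_congr rfl
  intro i hi
  rw [mul_smul_comm, smul_mul_assoc, h i hi]

theorem setup {m N : ℕ} {μ : Fin (N+1) → ℕ} (hμ : ∀ k, 0 < μ k) (hsum : ∑ k, μ k = m + 1) :
    ∃ (w : List (Fin m)) (γ : Perm (Fin (m+1))), (w.map gen).prod = Tγ m μ ∧ wp w = γ ∧
      w.length = inv γ ∧
      Setup qq gen N (fun x : Fin (m+1) => blk μ x) (ps μ) (antisym m N) (eμ m μ) γ := by
  classical
  have hNm : N ≤ m := by
    have := le_ps μ hμ (N+1) le_rfl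
    rw [ps_top, hsum] at this; omega
  obtain ⟨w, h1, h2, h3, h4⟩ := good_gamma hμ hsum N le_rfl
  rw [show N + 1 - N = 1 by omega] at h1
  have hL : ∀ i : Fin m, blk μ (i.castSucc : Fin (m+1)) = blk μ (i.succ : Fin (m+1)) →
      gen i * (∑ σ ∈ Finset.univ.filter (fun σ => σ ∈ young m μ), qq ^ inv σ • Tp gen σ) =
      qq • (∑ σ ∈ Finset.univ.filter (fun σ => σ ∈ young m μ), qq ^ inv σ • Tp gen σ) := by
    intro i hi
    apply eig_left (hrel m) qq (quad_q qq_ne) i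
    intro σ hσ
    simp only [Finset.mem_filter, Finset.mem_univ, true_and] at hσ ⊢
    exact Subgroup.mul_mem _ (s_mem i hi) hσ
  have hR : ∀ i : Fin m, blk μ (i.castSucc : Fin (m+1)) = blk μ (i.succ : Fin (m+1)) →
      (∑ σ ∈ Finset.univ.filter (fun σ => σ ∈ young m μ), qq ^ inv σ • Tp gen σ) * gen i =
      qq • (∑ σ ∈ Finset.univ.filter (fun σ => σ ∈ young m μ), qq ^ inv σ • Tp gen σ) := by
    intro i hi
    apply eig_right (hrel m) qq (quad_q qq_ne) i
    intro σ hσ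
    simp only [Finset.mem_filter, Finset.mem_univ, true_and] at hσ ⊢
    exact Subgroup.mul_mem _ hσ (s_mem i hi)
  have hE : ∃ c : Kq, eμ m μ =
      c • (∑ σ ∈ Finset.univ.filter (fun σ => σ ∈ young m μ), qq ^ inv σ • Tp gen σ) := by
    refine ⟨(∑ σ ∈ Finset.univ.filter (fun σ => σ ∈ young m μ), qq ^ (2 * inv σ))⁻¹, ?_⟩
    unfold eμ
    simp only [len_eq_inv]
  obtain ⟨c, hc⟩ := hE
  have hAL : ∀ i : Fin N, T1 m ((i:ℕ) + 1) *
      (∑ σ : Perm (Fin (N+1)), (-qq⁻¹) ^ inv σ • Tp (fun i : Fin N => T1 m ((i:ℕ) + 1)) σ) =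
      (-qq⁻¹) • (∑ σ : Perm (Fin (N+1)), (-qq⁻¹) ^ inv σ • Tp (fun i : Fin N => T1 m ((i:ℕ) + 1)) σ) :=
    fun i => eig_left (hrel' hNm) (-qq⁻¹) (quad_q' qq_ne) i _ (fun _ _ => Finset.mem_univ _)
  have hAR : ∀ i : Fin N,
      (∑ σ : Perm (Fin (N+1)), (-qq⁻¹) ^ inv σ • Tp (fun i : Fin N => T1 m ((i:ℕ) + 1)) σ) *
        T1 m ((i:ℕ) + 1) =
      (-qq⁻¹) • (∑ σ : Perm (Fin (N+1)), (-qq⁻¹) ^ inv σ • Tp (fun i : Fin N => T1 m ((i:ℕ) + 1)) σ) :=
    fun i => eig_right (hrel' hNm) (-qq⁻¹) (quad_q' qq_ne) i _ (fun _ _ => Finset.mem_univ _)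
  refine ⟨w, wp w, h1, rfl, h2, ?_⟩
  refine
    { hT := hrel m
      hNm := hNm
      hq := hqq
      mono := fun x y hxy => blk_mono μ hxy
      bound := fun x => blk_le μ x
      st := ?_
      A1 := ?_
      A1' := ?_
      A2 := ?_
      E1 := ?_
      E2 := ?_
      EE := ?_
      γP := h3
      γst := ?_ }
  · intro x hx
    obtain ⟨i, hi1, hi2⟩ := blk_st μ hμ x hx
    have hxl := x.isLt
    refine ⟨⟨i, by omega⟩, ?_, ?_⟩
    · ext; simp [hi1]
    · simpa using hi2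
  · intro p hp
    have := hAR ⟨p, by omega⟩
    rw [T1_eq hNm] at this
    rw [antisym_eq, smul_mul_assoc, smul_comm]
    congr 1
  · intro p hp
    have := hAL ⟨p, by omega⟩
    rw [T1_eq hNm] at this
    rw [antisym_eq, mul_smul_comm, smul_comm]
    congr 1
  · intro p hp
    rw [antisym_eq]
    apply gen_comm
    intro σ _
    unfold Tp
    induction redWord σ with
    | nil => simp
    | cons i u ih =>
      rw [List.map_cons, List.prod_cons, ← mul_assoc, mul_assoc _ _ (gen p), ← ih, ← mul_assoc,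
        T1_eq hNm]
      congr 1
      exact ((hrel m).comm ⟨i, by omega⟩ p (by simp only; omega)).symm
  · intro i hi
    rw [hc, mul_smul_comm, hL i hi, smul_comm]
  · intro i hi
    rw [hc, smul_mul_assoc, hR i hi, smul_comm]
  · refine ⟨c * ∑ σ ∈ Finset.univ.filter (fun σ => σ ∈ young m μ), qq ^ inv σ * qq ^ inv σ, ?_⟩
    rw [hc]
    apply gen_EE
    intro σ hσ
    simp only [Finset.mem_filter, Finset.mem_univ, true_and] at hσ
    exact young_mul _ hL σ hσ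
  · intro x hx
    rw [h4 x hx]
    change (if N - N < (x:ℕ) then ps μ x else (x:ℕ)) = _
    split_ifs with c1
    · rfl
    · have : (x:ℕ) = 0 := by omega
      rw [this, ps_zero]

/-- **Centrality of `X^μ_N`.** -/
theorem main {m N : ℕ} {μ : Fin (N+1) → ℕ} (hμ : ∀ k, 0 < μ k) (hsum : ∑ k, μ k = m + 1) :
    IsUnit (Tγ m μ) ∧ ∀ h : Hecke m,
      Xμ m μ * (eμ m μ * h * eμ m μ) = (eμ m μ * h * eμ m μ) * Xμ m μ := by
  obtain ⟨w, γ, h1, h2, h3, S⟩ := setup hμ hsum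
  have hu := prod_Ti (hrel m) w
  rw [h1] at hu
  have hU : IsUnit (Tγ m μ) := ⟨⟨_, _, hu.1, hu.2⟩, rfl⟩
  refine ⟨hU, fun h => ?_⟩
  have := central S (hgen m) w h2 h3 (Ring.inverse (Tγ m μ)) (by
    rw [h1, Ring.inverse_mul_cancel _ hU]) h
  rw [h1] at this
  exact this

end Q93HK
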