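import Pool.Agent.Q93.HK.Alg

namespace Q93HK

open Equiv

variable {m : ℕ} {K H : Type*} [Field K] [Ring H] [Algebra K H] {q : K} {T : Fin m → H}

/-- the parts `{0..N}` and `{N+1..}` -/
def β0 (N : ℕ) (x : Fin (m+1)) : ℕ := if (x:ℕ) ≤ N then 0 else 1

lemma β0_mono (N : ℕ) : Monotone (β0 (m := m) N) := by
  intro x y hxy
  have : (x:ℕ) ≤ y := hxy
  unfold β0
  split_ifs <;> omega

lemma uniq {N : ℕ} {d γ : Perm (Fin (m+1))} (hd : InP (β0 N) d) (hγ : InP (β0 N) γ)
    (h : ∀ x : Fin (m+1), (x:ℕ) ≤ N → d x = γ x) : d = γ := by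
  have hδ : ∀ x : Fin (m+1), (x:ℕ) ≤ N → (d⁻¹ * γ) x = x := by
    intro x hx; rw [Perm.mul_apply, ← h x hx]; simp
  have hδ2 : ∀ y : Fin (m+1), N < (y:ℕ) → N < ((d⁻¹ * γ) y : ℕ) := by
    intro y hy
    by_contra hc
    push Not at hc
    have := hδ _ hc
    have h2 := (d⁻¹ * γ).injective this
    rw [h2] at hc; omega
  have hmono : StrictMono (d⁻¹ * γ) := by
    intro x y hxy
    have hxy' : (x:ℕ) < y := hxy
    by_cases hy : (y:ℕ) ≤ N
    · rw [hδ x (by omega), hδ y hy]; exact hxy
    · push Not at hy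
      by_cases hx : (x:ℕ) ≤ N
      · rw [hδ x hx, Fin.lt_def]; have := hδ2 y hy; omega
      · push Not at hx
        by_contra hc
        push Not at hc
        have l1 := hγ x y hxy (by unfold β0; rw [if_neg, if_neg] <;> omega)
        have dx := hδ2 x hx
        have dy := hδ2 y hy
        rcases eq_or_lt_of_le hc with he | hlt
        · exact absurd ((d⁻¹ * γ).injective he) (ne_of_gt hxy)
        · have l2 := hd _ _ hlt (by unfold β0; rw [if_neg, if_neg] <;> omega)
          have ex : d ((d⁻¹ * γ) x) = γ x := by simp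
          have ey : d ((d⁻¹ * γ) y) = γ y := by simp
          rw [ex, ey] at l2
          exact absurd l1 (not_lt.mpr l2.le)
  have := perm_eq_one_of_strictMono _ hmono
  exact inv_mul_eq_one.mp this

lemma strict_nat {N : ℕ} (F : ℕ → ℕ) (h : ∀ a, a + 1 ≤ N → F a < F (a+1)) (hN : F N ≤ N) :
    ∀ a, a ≤ N → F a = a := by
  have h1 : ∀ a, a ≤ N → a ≤ F a := by
    intro a
    induction a with
    | zero => intro _; omega
    | succ a ih => intro ha; have := ih (by omega); have := h a ha; omega
  have h2 : ∀ k, k ≤ N → F (N - k) + k ≤ N := by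
    intro k
    induction k with
    | zero => intro _; simpa using hN
    | succ k ih =>
      intro hk
      have e1 := ih (by omega)
      have e2 := h (N - (k+1)) (by omega)
      rw [show N - (k+1) + 1 = N - k by omega] at e2
      omega
  intro a ha
  have e1 := h1 a ha
  have e2 := h2 (N - a) (by omega)
  rw [show N - (N - a) = a by omega] at e2
  omega

lemma InP_of_local {β : Fin (m+1) → ℕ} (hβ : Monotone β) (f : Perm (Fin (m+1)))
    (h : ∀ i : Fin m, β i.castSucc = β i.succ → f i.castSucc < f i.succ) : InP β f := by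
  have key : ∀ (x : Fin (m+1)) (k : ℕ) (hk : (x:ℕ) + k + 1 < m + 1),
      β ⟨x + k + 1, hk⟩ = β x → f x < f ⟨x + k + 1, hk⟩ := by
    intro x k
    induction k with
    | zero =>
      intro hk hb
      have := h ⟨x, by omega⟩ (by
        rw [show (⟨(x:ℕ), by omega⟩ : Fin m).castSucc = x by ext; simp]
        rw [← hb]; congr 1)
      rw [show (⟨(x:ℕ), by omega⟩ : Fin m).castSucc = x by ext; simp] at this
      exact this
    | succ k ih =>
      intro hk hb
      have hk' : (x:ℕ) + k + 1 < m + 1 := by omega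
      have m1 : β x ≤ β ⟨x + k + 1, hk'⟩ := hβ (by rw [Fin.le_def]; simp; omega)
      have m2 : β ⟨x + k + 1, hk'⟩ ≤ β ⟨x + (k + 1) + 1, hk⟩ := hβ (by rw [Fin.le_def]; simp)
      have e1 := ih hk' (le_antisymm (by rw [← hb]; exact m2) m1)
      have e2 := h ⟨x + k + 1, by omega⟩ (by
        change β ⟨x + k + 1, hk'⟩ = β ⟨x + (k + 1) + 1, hk⟩
        apply le_antisymm m2
        rw [hb]; exact m1)
      exact e1.trans e2
  intro x y hxy hb
  have hxy' : (x:ℕ) < y := hxy
  have hy := y.isLt
  obtain ⟨k, hk⟩ := Nat.exists_eq_add_of_lt hxy'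
  have e : y = ⟨x + k + 1, by omega⟩ := by ext; simp [hk]
  rw [e] at hb ⊢
  exact key x k (by omega) hb.symm

/-- the hypotheses used in the proof -/
structure Setup (q : K) (T : Fin m → H) (N : ℕ) (blk : Fin (m+1) → ℕ) (start : ℕ → ℕ) (A E : H)
    (γ : Perm (Fin (m+1))) : Prop where
  hT : HRel q T
  hNm : N ≤ m
  hq : ∀ p : Polynomial ℕ, p ≠ 0 → p.eval₂ (Nat.castRingHom K) q ≠ 0
  mono : Monotone blk
  bound : ∀ x, blk x ≤ N
  st : ∀ x : Fin (m+1), (x:ℕ) ≠ start (blk x) → ∃ i : Fin m, x = i.succ ∧ blk i.castSucc = blk i.succ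
  A1 : ∀ p : Fin m, (p:ℕ) + 1 ≤ N → A * T p = (-q⁻¹) • A
  A1' : ∀ p : Fin m, (p:ℕ) + 1 ≤ N → T p * A = (-q⁻¹) • A
  A2 : ∀ p : Fin m, N < (p:ℕ) → T p * A = A * T p
  E1 : ∀ i : Fin m, blk i.castSucc = blk i.succ → T i * E = q • E
  E2 : ∀ i : Fin m, blk i.castSucc = blk i.succ → E * T i = q • E
  EE : ∃ l : K, E * E = l • E
  γP : InP (β0 N) γ
  γst : ∀ x : Fin (m+1), (x:ℕ) ≤ N → (γ x : ℕ) = start x

lemma q_ne (hq : ∀ p : Polynomial ℕ, p ≠ 0 → p.eval₂ (Nat.castRingHom K) q ≠ 0) : q ≠ 0 := by
  have := hq Polynomial.X Polynomial.X_ne_zero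
  simpa using this

lemma q_add (hq : ∀ p : Polynomial ℕ, p ≠ 0 → p.eval₂ (Nat.castRingHom K) q ≠ 0) :
    q + q⁻¹ ≠ 0 := by
  have h0 := q_ne hq
  have h1 := hq (Polynomial.X ^ 2 + 1) (by
    intro h
    have := congrArg (fun p => Polynomial.coeff p 0) h
    simp at this)
  simp at h1
  intro h
  apply h1
  have : q * (q + q⁻¹) = 0 := by rw [h, mul_zero]
  rw [mul_add, mul_inv_cancel₀ h0] at this
  rw [← this]; ring

section
variable {N : ℕ} {blk : Fin (m+1) → ℕ} {start : ℕ → ℕ} {A E : H} {γ : Perm (Fin (m+1))}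

lemma term (S : Setup q T N blk start A E γ) (v : Perm (Fin (m+1))) (h1 : InP (β0 N) v⁻¹)
    (h2 : InP blk v) : A * Tp T v * E = 0 ∨ v⁻¹ = γ := by
  by_cases hadj : ∃ a : Fin m, (a:ℕ)+1 ≤ N ∧ blk (v⁻¹ a.castSucc) = blk (v⁻¹ a.succ)
  · left
    obtain ⟨a, ha, hb⟩ := hadj
    obtain ⟨p, hp1, hp2, hp3⟩ := InP_adj S.mono h2 a hb
    have l1 : v⁻¹ a.castSucc < v⁻¹ a.succ := by rw [hp1, hp2]; exact Fin.castSucc_lt_succ
    have l2 : v p.castSucc < v p.succ := by
      have e1 : v (v⁻¹ a.castSucc) = a.castSucc := by simp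
      have e2 : v (v⁻¹ a.succ) = a.succ := by simp
      rw [← hp1, ← hp2, e1, e2]; exact Fin.castSucc_lt_succ
    have h3 : T a * Tp T v = Tp T v * T p := by
      rw [← Tp_asc S.hT.toBraid a v l1, ← Tp_asc_right S.hT.toBraid p v l2, hp3]
    have hE := S.E1 p (by rw [← hp1, ← hp2]; exact hb)
    have c1 : A * (T a * Tp T v) * E = (-q⁻¹) • (A * Tp T v * E) := by
      rw [← mul_assoc, S.A1 a ha, smul_mul_assoc, smul_mul_assoc]
    have c2 : A * (T a * Tp T v) * E = q • (A * Tp T v * E) := by
      rw [h3, ← mul_assoc, mul_assoc, hE, mul_smul_comm]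
    have c3 : (q + q⁻¹) • (A * Tp T v * E) = 0 := by
      rw [add_smul, ← c2, c1, ← add_smul, neg_add_cancel, zero_smul]
    rw [← inv_smul_smul₀ (q_add S.hq) (A * Tp T v * E), c3, smul_zero]
  · right
    push Not at hadj
    have hm := S.hNm
    -- the block of `v⁻¹ a` is `a`
    have hblk : ∀ x : Fin (m+1), (x:ℕ) ≤ N → blk (v⁻¹ x) = x := by
      have := strict_nat (N := N) (fun a => if h : a < m + 1 then blk (v⁻¹ ⟨a, h⟩) else 0) (by
        intro a ha
        have ha1 : a < m + 1 := by omega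
        have ha2 : a + 1 < m + 1 := by omega
        simp only [ha1, ha2, dif_pos]
        have hne := hadj ⟨a, by omega⟩ ha
        have hlt : v⁻¹ (⟨a, by omega⟩ : Fin m).castSucc < v⁻¹ (⟨a, by omega⟩ : Fin m).succ := by
          apply h1 _ _ Fin.castSucc_lt_succ
          unfold β0
          rw [if_pos, if_pos]
          · simpa using ha
          · simp; omega
        exact lt_of_le_of_ne (S.mono hlt.le) hne) (by
        have ha1 : N < m + 1 := by omega
        simp only [ha1, dif_pos]
        exact S.bound _)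
      intro x hx
      have h3 := this x hx
      simp only [x.isLt, dif_pos] at h3
      exact h3
    apply uniq h1 S.γP
    intro x hx
    apply Fin.ext
    rw [S.γst x hx]
    by_contra hne
    have hb := hblk x hx
    rw [← hb] at hne
    obtain ⟨i, hi1, hi2⟩ := S.st (v⁻¹ x) hne
    have l1 := h2 _ _ (Fin.castSucc_lt_succ (i := i)) hi2
    have e1 : v i.succ = x := by rw [← hi1]; simp
    rw [e1] at l1
    have l1' : ((v i.castSucc : Fin (m+1)) : ℕ) < x := l1
    have hb2 := hblk (v i.castSucc) (by omega)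
    have e2 : v⁻¹ (v i.castSucc) = i.castSucc := by simp
    rw [e2, hi2, ← hi1, hb] at hb2
    omega

lemma van (S : Setup q T N blk start A E γ) (v : Perm (Fin (m+1))) (hv : inv v < inv γ) :
    A * Tp T v * E = 0 := by
  induction hn : inv v using Nat.strong_induction_on generalizing v with
  | _ n ih =>
  subst hn
  by_cases c1 : ∃ i : Fin m, (i:ℕ) ≠ N ∧ v⁻¹ i.succ < v⁻¹ i.castSucc
  · obtain ⟨i, hi, hd⟩ := c1
    have hu := inv_desc i v hd
    have h0 := ih _ (by omega) (s i * v) (by omega) rfl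
    have h3 := Tp_asc S.hT.toBraid i (s i * v) (by simpa [inv_s_mul_apply] using hd)
    rw [s_mul_s_mul] at h3
    rw [h3, ← mul_assoc A]
    rcases lt_or_gt_of_ne hi with h | h
    · rw [S.A1 i (by omega), smul_mul_assoc, smul_mul_assoc, h0, smul_zero]
    · rw [← S.A2 i h, mul_assoc (T i), mul_assoc (T i), h0, mul_zero]
  by_cases c2 : ∃ i : Fin m, blk i.castSucc = blk i.succ ∧ v i.succ < v i.castSucc
  · obtain ⟨i, hi, hd⟩ := c2
    have hu := inv_desc_right i v hd
    have h0 := ih _ (by omega) (v * s i) (by omega) rfl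
    have h3 := Tp_asc_right S.hT.toBraid i (v * s i) (by simpa using hd)
    rw [mul_assoc, s_mul_self, mul_one] at h3
    rw [h3, ← mul_assoc, mul_assoc, S.E1 i hi, mul_smul_comm, h0, smul_zero]
  push Not at c1 c2
  have g1 : InP (β0 N) v⁻¹ := by
    apply InP_of_local (β0_mono N)
    intro i hi
    have hne : (i:ℕ) ≠ N := by
      intro h
      unfold β0 at hi
      rw [if_pos (by simp; omega), if_neg (by simp; omega)] at hi
      omega
    rcases asc_or_desc i v with h | h
    · exact h
    · exact absurd h (not_lt.mpr (c1 i hne))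
  have g2 : InP blk v := by
    apply InP_of_local S.mono
    intro i hi
    rcases asc_or_desc i v⁻¹ with h | h
    · simpa using h
    · exact absurd (by simpa using h) (not_lt.mpr (c2 i hi))
  rcases term S v g1 g2 with h | h
  · exact h
  · rw [← h, inv_inv_perm] at hv; omega

lemma terms (S : Setup q T N blk start A E γ) (v : Perm (Fin (m+1))) (hv : InP (β0 N) v⁻¹) :
    ∃ p : Polynomial ℕ, (E * Tp T v⁻¹ * (A * Tp T v * E) =
      (p.eval₂ (Nat.castRingHom K) q) • (E * Tp T γ * (A * Tp T γ⁻¹ * E))) ∧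
      (v⁻¹ = γ → p = 1) := by
  induction hn : inv v using Nat.strong_induction_on generalizing v with
  | _ n ih =>
  subst hn
  by_cases hγ : v⁻¹ = γ
  · refine ⟨1, ?_, fun _ => rfl⟩
    have : v = γ⁻¹ := by rw [← hγ]; simp
    rw [this]; simp
  by_cases c2 : ∃ i : Fin m, blk i.castSucc = blk i.succ ∧ v i.succ < v i.castSucc
  · obtain ⟨i, hi, hd⟩ := c2
    have hu := inv_desc_right i v hd
    have hβ : β0 N (v i.castSucc) ≠ β0 N (v i.succ) := by
      intro hh
      have := hv _ _ hd hh.symm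
      have e1 : v⁻¹ (v i.castSucc) = i.castSucc := by simp
      have e2 : v⁻¹ (v i.succ) = i.succ := by simp
      rw [e1, e2] at this
      exact absurd this (not_lt.mpr (Fin.castSucc_lt_succ).le)
    have hP : InP (β0 N) (v * s i)⁻¹ := by
      rw [mul_inv_rev, s_inv]
      exact InP_step hv i (by simpa using hβ)
    obtain ⟨p, hp, _⟩ := ih _ (by omega) (v * s i) hP rfl
    refine ⟨Polynomial.X ^ 2 * p, ?_, fun h => absurd h hγ⟩
    have h3 := Tp_asc_right S.hT.toBraid i (v * s i) (by simpa using hd)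
    rw [mul_assoc, s_mul_self, mul_one] at h3
    have h4 := Tp_asc S.hT.toBraid i (v * s i)⁻¹ (by simpa using hd)
    have e4 : s i * (v * s i)⁻¹ = v⁻¹ := by rw [mul_inv_rev, s_inv, s_mul_s_mul]
    rw [e4] at h4
    have h5 : A * Tp T v * E = q • (A * Tp T (v * s i) * E) := by
      rw [h3, ← mul_assoc, mul_assoc, S.E1 i hi, mul_smul_comm]
    have h6 : E * Tp T v⁻¹ = q • (E * Tp T (v * s i)⁻¹) := by
      rw [h4, ← mul_assoc, S.E2 i hi, smul_mul_assoc]
    rw [h5, h6, smul_mul_assoc, mul_smul_comm, hp, smul_smul, smul_smul, Polynomial.eval₂_mul,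
      Polynomial.eval₂_pow, Polynomial.eval₂_X]
    congr 1; ring
  push Not at c2
  have g2 : InP blk v := by
    apply InP_of_local S.mono
    intro i hi
    rcases asc_or_desc i v⁻¹ with h | h
    · simpa using h
    · exact absurd (by simpa using h) (not_lt.mpr (c2 i hi))
  rcases term S v hv g2 with h | h
  · refine ⟨0, ?_, fun h => absurd h hγ⟩
    rw [h, mul_zero]; simp
  · exact absurd h hγ

lemma eZe (S : Setup q T N blk start A E γ) :
    ∃ c : K, c ≠ 0 ∧ E * Zc T (β0 N) A * E = c • (E * Tp T γ * (A * Tp T γ⁻¹ * E)) := by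
  classical
  have h : ∀ d : Perm (Fin (m+1)), ∃ p : Polynomial ℕ, InP (β0 N) d →
      ((E * Tp T d * (A * Tp T d⁻¹ * E) =
      (p.eval₂ (Nat.castRingHom K) q) • (E * Tp T γ * (A * Tp T γ⁻¹ * E))) ∧ (d = γ → p = 1)) := by
    intro d
    by_cases hd : InP (β0 N) d
    · obtain ⟨p, hp1, hp2⟩ := terms S d⁻¹ (by rwa [inv_inv])
      rw [inv_inv] at hp1 hp2
      exact ⟨p, fun _ => ⟨hp1, hp2⟩⟩
    · exact ⟨0, fun h => absurd h hd⟩
  choose p hp using h
  refine ⟨(∑ d ∈ Finset.univ.filter (InP (β0 N)), p d).eval₂ (Nat.castRingHom K) q, ?_, ?_⟩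
  · apply S.hq
    intro h0
    have h1 := congrArg (fun f => Polynomial.coeff f 0) h0
    simp only [Polynomial.finsetSum_coeff, Polynomial.coeff_zero] at h1
    have h2 : (p γ).coeff 0 ≤ ∑ d ∈ Finset.univ.filter (InP (β0 N)), (p d).coeff 0 := by
      apply Finset.single_le_sum (f := fun d => (p d).coeff 0) (fun _ _ => Nat.zero_le _)
      simp [S.γP]
    rw [h1, (hp γ S.γP).2 rfl] at h2
    simp at h2
  · unfold Zc
    rw [Finset.mul_sum, Finset.sum_mul, Polynomial.eval₂_finsetSum, Finset.sum_smul]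
    apply Finset.sum_congr rfl
    intro d hd
    simp only [Finset.mem_filter, Finset.mem_univ, true_and] at hd
    rw [← (hp d hd).1]
    noncomm_ring

/-- span of the `T_v` with fewer than `k` inversions -/
def Fil (K : Type*) [Field K] [Algebra K H] (T : Fin m → H) (k : ℕ) : Submodule K H :=
  Submodule.span K {x | ∃ v : Perm (Fin (m+1)), inv v < k ∧ x = Tp T v}

lemma Fil_mono {k l : ℕ} (h : k ≤ l) : Fil K T k ≤ Fil K T l := by
  apply Submodule.span_mono
  rintro x ⟨v, hv, rfl⟩
  exact ⟨v, by omega, rfl⟩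

lemma T_mul_Fil (hT : HRel q T) (i : Fin m) {k : ℕ} {x : H} (hx : x ∈ Fil K T k) :
    T i * x ∈ Fil K T (k+1) := by
  unfold Fil at hx
  induction hx using Submodule.span_induction with
  | mem x hx =>
    obtain ⟨v, hv, rfl⟩ := hx
    rcases asc_or_desc i v with h | h
    · rw [← Tp_asc hT.toBraid i v h]
      apply Submodule.subset_span
      exact ⟨_, by rw [inv_asc i v h]; omega, rfl⟩
    · rw [Tp_desc hT i v h]
      have := inv_desc i v h
      apply Submodule.add_mem
      · apply Submodule.subset_span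
        exact ⟨_, by omega, rfl⟩
      · apply Submodule.smul_mem
        apply Submodule.subset_span
        exact ⟨v, by omega, rfl⟩
  | zero => rw [mul_zero]; exact Submodule.zero_mem _
  | add x y _ _ hx hy => rw [mul_add]; exact Submodule.add_mem _ hx hy
  | smul a x _ hx => rw [mul_smul_comm]; exact Submodule.smul_mem _ _ hx

lemma prod_mem_Fil (hT : HRel q T) (u : List (Fin m)) : (u.map T).prod ∈ Fil K T (u.length + 1) := by
  induction u with
  | nil =>
    apply Submodule.subset_span
    exact ⟨1, by rw [inv_one]; simp, by rw [Tp_one]; simp⟩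
  | cons i u ih =>
    rw [List.map_cons, List.prod_cons, List.length_cons]
    exact T_mul_Fil hT i ih

/-- inverse of `T i` -/
def Ti (q : K) (T : Fin m → H) (i : Fin m) : H := T i - (q - q⁻¹) • 1

lemma T_Ti (hT : HRel q T) (i : Fin m) : T i * Ti q T i = 1 := by
  unfold Ti
  rw [mul_sub, hT.quad, mul_smul_comm, mul_one, add_sub_cancel_right]

lemma Ti_T (hT : HRel q T) (i : Fin m) : Ti q T i * T i = 1 := by
  unfold Ti
  rw [sub_mul, hT.quad, smul_mul_assoc, one_mul, add_sub_cancel_right]

lemma prod_Ti (hT : HRel q T) (w : List (Fin m)) :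
    (w.map T).prod * (w.reverse.map (Ti q T)).prod = 1 ∧
    (w.reverse.map (Ti q T)).prod * (w.map T).prod = 1 := by
  induction w with
  | nil => simp
  | cons i w ih =>
    simp only [List.map_cons, List.prod_cons, List.reverse_cons, List.map_append, List.prod_append,
      List.map_nil, List.prod_nil, mul_one]
    constructor
    · calc T i * (w.map T).prod * ((w.reverse.map (Ti q T)).prod * Ti q T i)
          = T i * ((w.map T).prod * (w.reverse.map (Ti q T)).prod) * Ti q T i := by noncomm_ring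
        _ = 1 := by rw [ih.1, mul_one, T_Ti hT]
    · calc (w.reverse.map (Ti q T)).prod * Ti q T i * (T i * (w.map T).prod)
          = (w.reverse.map (Ti q T)).prod * (Ti q T i * T i) * (w.map T).prod := by noncomm_ring
        _ = 1 := by rw [Ti_T hT, mul_one, ih.2]

lemma inv_prod_mem (hT : HRel q T) (u : List (Fin m)) :
    (u.map (Ti q T)).prod - (u.map T).prod ∈ Fil K T u.length := by
  induction u with
  | nil => simp
  | cons i u ih =>
    simp only [List.map_cons, List.prod_cons, List.length_cons]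
    have e : Ti q T i * (u.map (Ti q T)).prod - T i * (u.map T).prod =
        T i * ((u.map (Ti q T)).prod - (u.map T).prod)
        - (q - q⁻¹) • ((u.map (Ti q T)).prod - (u.map T).prod) - (q - q⁻¹) • (u.map T).prod := by
      unfold Ti
      rw [sub_mul, smul_mul_assoc, one_mul, mul_sub, smul_sub]
      abel
    rw [e]
    apply Submodule.sub_mem
    · apply Submodule.sub_mem
      · exact T_mul_Fil hT i ih
      · exact Submodule.smul_mem _ _ (Fil_mono (by omega) ih)
    · exact Submodule.smul_mem _ _ (prod_mem_Fil hT u)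

lemma van_Fil (S : Setup q T N blk start A E γ) {x : H} (hx : x ∈ Fil K T (inv γ)) :
    A * x * E = 0 := by
  unfold Fil at hx
  induction hx using Submodule.span_induction with
  | mem x hx => obtain ⟨v, hv, rfl⟩ := hx; exact van S v hv
  | zero => simp
  | add x y _ _ hx hy => rw [mul_add, add_mul, hx, hy, add_zero]
  | smul a x _ hx => rw [mul_smul_comm, smul_mul_assoc, hx, smul_zero]

lemma AGE (S : Setup q T N blk start A E γ) (w : List (Fin m)) (hw : wp w = γ)
    (hl : w.length = inv γ) (G : H) (hG : G * (w.map T).prod = 1) :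
    A * G * E = A * Tp T γ⁻¹ * E := by
  have h1 : G = (w.reverse.map (Ti q T)).prod := by
    calc G = G * ((w.map T).prod * (w.reverse.map (Ti q T)).prod) := by
          rw [(prod_Ti S.hT w).1, mul_one]
      _ = _ := by rw [← mul_assoc, hG, one_mul]
  have h2 : Tp T γ⁻¹ = (w.reverse.map T).prod := by
    rw [← hw, ← wp_reverse]
    apply Tp_eq_of_red S.hT.toBraid
    rw [wp_reverse, hw, inv_inv_perm, List.length_reverse, hl]
  have h3 := inv_prod_mem S.hT w.reverse
  rw [List.length_reverse, hl] at h3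
  have h4 := van_Fil S h3
  rw [← h1, ← h2, mul_sub, sub_mul, sub_eq_zero] at h4
  exact h4

/-- commuting with all generators gives commuting with everything they generate -/
lemma comm_all (hgen : Algebra.adjoin K (Set.range T) = ⊤) (Z : H) (hZ : ∀ i, T i * Z = Z * T i)
    (h : H) : h * Z = Z * h := by
  have hm : h ∈ Algebra.adjoin K (Set.range T) := by rw [hgen]; exact Algebra.mem_top
  induction hm using Algebra.adjoin_induction with
  | mem x hx => obtain ⟨i, rfl⟩ := hx; exact hZ i
  | algebraMap r => exact Algebra.commutes r Z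
  | add x y _ _ hx hy => rw [add_mul, mul_add, hx, hy]
  | mul x y _ _ hx hy => rw [mul_assoc, hy, ← mul_assoc, hx, mul_assoc]

theorem central (S : Setup q T N blk start A E γ) (hgen : Algebra.adjoin K (Set.range T) = ⊤)
    (w : List (Fin m)) (hw : wp w = γ) (hl : w.length = inv γ) (G : H)
    (hG : G * (w.map T).prod = 1) (h : H) :
    (E * (w.map T).prod * A * G * E) * (E * h * E) =
    (E * h * E) * (E * (w.map T).prod * A * G * E) := by
  have h1 : (w.map T).prod = Tp T γ := by
    rw [← hw]; exact (Tp_eq_of_red S.hT.toBraid w (by rw [hl, hw])).symm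
  have h2 : E * (w.map T).prod * A * G * E = E * Tp T γ * (A * Tp T γ⁻¹ * E) := by
    rw [← AGE S w hw hl G hG, h1]; noncomm_ring
  obtain ⟨c, hc, hc2⟩ := eZe S
  have hZ : ∀ h : H, h * Zc T (β0 N) A = Zc T (β0 N) A * h := by
    apply comm_all hgen
    intro i
    apply Zc_comm S.hT (β0_mono N)
    intro p hp
    have hne : (p:ℕ) ≠ N := by
      intro h
      unfold β0 at hp
      rw [if_pos (by simp; omega), if_neg (by simp; omega)] at hp
      omega
    rcases lt_or_gt_of_ne hne with h | h
    · rw [S.A1 p (by omega), S.A1' p (by omega)]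
    · exact S.A2 p h
  have h3 : E * (w.map T).prod * A * G * E = c⁻¹ • (E * Zc T (β0 N) A * E) := by
    rw [h2, hc2, inv_smul_smul₀ hc]
  rw [h3]
  obtain ⟨l, hl⟩ := S.EE
  generalize Zc T (β0 N) A = Z at hZ ⊢
  rw [smul_mul_assoc, mul_smul_comm]
  congr 1
  calc E * Z * E * (E * h * E) = E * (Z * (E * E * h)) * E := by noncomm_ring
    _ = E * ((E * E * h) * Z) * E := by rw [hZ]
    _ = (E * E) * (E * h * Z * E) := by noncomm_ring
    _ = l • (E * (E * h * Z * E)) := by rw [hl, smul_mul_assoc]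
    _ = l • ((E * E) * (h * Z * E)) := by simp only [mul_assoc]
    _ = (l * l) • (E * h * Z * E) := by
        rw [hl, mul_smul]; simp only [smul_mul_assoc, mul_assoc]
    _ = l • (E * h * Z * (l • E)) := by rw [mul_smul_comm, smul_smul]
    _ = l • (E * h * (Z * E) * E) := by rw [← hl]; simp only [mul_assoc]
    _ = l • (E * h * (E * Z) * E) := by rw [hZ]
    _ = E * h * (l • E) * Z * E := by
        rw [mul_smul_comm, smul_mul_assoc, smul_mul_assoc]; simp only [mul_assoc]
    _ = E * h * E * (E * Z * E) := by rw [← hl]; noncomm_ring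

end

end Q93HK
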